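import Mathlib

set_option autoImplicit false

/-!
# Lattice points in trapezoids over discretely ordered rings: definitions

`T = {(x, y) : x0 ≤ x ≤ x1, a x + b ≤ c y, c' y ≤ a' x + b'}`, `c, c' > 0`; its vertices, scaled by `N = c c'`, are
`(vx l, vy l)`, `l = 0, 1, 2, 3`.
-/

namespace Pool.Agent.H20.FL

variable {R : Type} [CommRing R] [LinearOrder R] [IsStrictOrderedRing R]

/-- the point `(x, y)` is in the trapezoid -/
def In (x0 x1 a b c a' b' c' x y : R) : Prop :=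
  x0 ≤ x ∧ x ≤ x1 ∧ a * x + b ≤ c * y ∧ c' * y ≤ a' * x + b'

def vx (x0 x1 c c' : R) : Fin 4 → R := ![c * c' * x0, c * c' * x0, c * c' * x1, c * c' * x1]

def vy (x0 x1 a b c a' b' c' : R) : Fin 4 → R :=
  ![c' * (a * x0 + b), c * (a' * x0 + b'), c' * (a * x1 + b), c * (a' * x1 + b')]

/-- `e ≤ p x + q y ≤ e + W` at the four points `(ξ l, υ l) / N` -/
def Strip (N : R) (ξ υ : Fin 4 → R) (p q e W : R) : Prop :=
  ∀ l : Fin 4, e * N ≤ p * ξ l + q * υ l ∧ p * ξ l + q * υ l ≤ (e + W) * N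

/-- there is a strip of width `W` for some unimodular matrix `(p q; r s)`, with bounds -/
def E (N : R) (ξ υ : Fin 4 → R) (B B' W : R) : Prop :=
  ∃ p q r s e : R, |p| ≤ B ∧ |q| ≤ B ∧ |r| ≤ B ∧ |s| ≤ B ∧ |e| ≤ B' ∧ p * s - q * r = 1 ∧
    Strip N ξ υ p q e W

end Pool.Agent.H20.FL
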