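import Mathlib

/-!
# The descent
-/

set_option autoImplicit false

namespace Pool.Agent.H20.FL

variable {R : Type} [CommRing R] [LinearOrder R] [IsStrictOrderedRing R]

theorem side (hv : ∀ a b : R, 0 < b → ∃ q, b * q ≤ a ∧ a < b * (q + 1))
    (N : R) (hN : 0 < N) (ξ υ : Fin 4 → R)
    (hC : ∀ (i j l : Fin 4) (α β γ X Y : R), 0 ≤ α → 0 ≤ β → 0 ≤ γ → 0 < α + β + γ →
      (α + β + γ) * (N * X) = α * ξ i + β * ξ j + γ * ξ l →
      (α + β + γ) * (N * Y) = α * υ i + β * υ j + γ * υ l → False)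
    (e W : R) (hW : 14 ≤ W) (h1 : ∀ l, e * N ≤ ξ l ∧ ξ l ≤ (e + W) * N) (i j l : Fin 4)
    (hi : ξ i < (e + 1) * N) (hj : (e + W - 1) * N < ξ j)
    (hl : 2 * ξ l ≤ (2 * e + W) * N)
    (hH : 6 * (N * (ξ j - ξ i)) ≤
      5 * ((υ l - υ i) * (ξ j - ξ i) - (υ j - υ i) * (ξ l - ξ i))) : False := by
  have hWN : 0 ≤ (W - 14) * N := mul_nonneg (by linarith) hN.le
  set D := ξ j - ξ i with hD
  have hDp : 0 < D := by nlinarith
  set H := (υ l - υ i) * D - (υ j - υ i) * (ξ l - ξ i) with hHd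
  have hND : 0 < N * D := mul_pos hN hDp
  have hHp : N * D < H := by linarith
  have hH0 : 0 < H := hND.trans hHp
  -- the abscissa
  obtain ⟨m, hm1, hm2, hm3⟩ : ∃ m : R, ξ l ≤ m * N ∧ e + 1 ≤ m ∧ m * N ≤ ξ l + N := by
    obtain ⟨q, hq1, hq2⟩ := hv (-ξ l) N hN
    rcases le_total (e + 1) (-q) with h | h
    · exact ⟨-q, by linarith, h, by linarith⟩
    · refine ⟨e + 1, ?_, le_rfl, ?_⟩
      · have : (-q) * N ≤ (e + 1) * N := mul_le_mul_of_nonneg_right h hN.le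
        linarith
      · have := (h1 l).1
        linarith
  have hmi : ξ i < m * N := lt_of_lt_of_le hi (mul_le_mul_of_nonneg_right hm2 hN.le)
  -- the distance to `j`
  have hDl : 6 * N < ξ j - ξ l := by linarith
  have hDl0 : 0 < ξ j - ξ l := by linarith
  have hkey : N * D * (ξ j - ξ l) ≤ H * (ξ j - m * N) := by
    have a1 : H * (ξ j - ξ l - N) ≤ H * (ξ j - m * N) :=
      mul_le_mul_of_nonneg_left (by linarith) hH0.le
    have a2 : 6 * (N * D) * (ξ j - ξ l - N) ≤ 5 * H * (ξ j - ξ l - N) :=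
      mul_le_mul_of_nonneg_right hH (by linarith)
    have a3 : 0 ≤ N * D * (ξ j - ξ l - 6 * N) := mul_nonneg hND.le (by linarith)
    linarith
  -- the ordinate
  obtain ⟨Y, hY1, hY2⟩ : ∃ Y : R, 0 ≤ (Y * N - υ i) * D - (υ j - υ i) * (m * N - ξ i) ∧
      (Y * N - υ i) * D - (υ j - υ i) * (m * N - ξ i) < N * D := by
    obtain ⟨q, hq1, hq2⟩ := hv (-(υ i * D + (υ j - υ i) * (m * N - ξ i))) (N * D) hND
    exact ⟨-q, by linarith, by linarith⟩
  set P := (Y * N - υ i) * D - (υ j - υ i) * (m * N - ξ i) with hP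
  refine hC i j l ((ξ j - m * N) * H - P * (ξ j - ξ l)) ((m * N - ξ i) * H - P * (ξ l - ξ i))
    (P * D) m Y ?_ ?_ ?_ ?_ ?_ ?_
  · have : P * (ξ j - ξ l) ≤ N * D * (ξ j - ξ l) := mul_le_mul_of_nonneg_right hY2.le hDl0.le
    linarith
  · have hPH : P ≤ H := hY2.le.trans hHp.le
    have a1 : 0 ≤ (m * N - ξ l) * H := mul_nonneg (by linarith) hH0.le
    rcases le_total (ξ i) (ξ l) with h | h
    · have a2 : P * (ξ l - ξ i) ≤ H * (ξ l - ξ i) :=
        mul_le_mul_of_nonneg_right hPH (by linarith)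
      linarith
    · have a2 : 0 ≤ P * (ξ i - ξ l) := mul_nonneg hY1 (by linarith)
      have a3 : 0 ≤ (m * N - ξ i) * H := mul_nonneg (by linarith) hH0.le
      linarith
  · exact mul_nonneg hY1 hDp.le
  · have e1 : (ξ j - m * N) * H - P * (ξ j - ξ l) + ((m * N - ξ i) * H - P * (ξ l - ξ i)) + P * D
        = H * D := by
      rw [hD]; ring
    rw [e1]
    exact mul_pos hH0 hDp
  · rw [hP, hHd, hD]; ring
  · rw [hP, hHd, hD]; ring

theorem claim (hv : ∀ a b : R, 0 < b → ∃ q, b * q ≤ a ∧ a < b * (q + 1))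
    (N : R) (hN : 0 < N) (ξ υ : Fin 4 → R)
    (hC : ∀ (i j l : Fin 4) (α β γ X Y : R), 0 ≤ α → 0 ≤ β → 0 ≤ γ → 0 < α + β + γ →
      (α + β + γ) * (N * X) = α * ξ i + β * ξ j + γ * ξ l →
      (α + β + γ) * (N * Y) = α * υ i + β * υ j + γ * υ l → False)
    (e W : R) (hW : 14 ≤ W) (h1 : ∀ l, e * N ≤ ξ l ∧ ξ l ≤ (e + W) * N) (i j l : Fin 4)
    (hi : ξ i < (e + 1) * N) (hj : (e + W - 1) * N < ξ j) :
    |5 * ((υ l - υ i) * (ξ j - ξ i) - (υ j - υ i) * (ξ l - ξ i))| < 6 * (N * (ξ j - ξ i)) := by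
  have hCn : ∀ (i j l : Fin 4) (α β γ X Y : R), 0 ≤ α → 0 ≤ β → 0 ≤ γ → 0 < α + β + γ →
      (α + β + γ) * (N * X) = α * ξ i + β * ξ j + γ * ξ l →
      (α + β + γ) * (N * Y) = α * (-υ i) + β * (-υ j) + γ * (-υ l) → False := by
    intro i j l α β γ X Y ha hb hc hs hX hY
    exact hC i j l α β γ X (-Y) ha hb hc hs hX (by linear_combination -hY)
  have hCx : ∀ (i j l : Fin 4) (α β γ X Y : R), 0 ≤ α → 0 ≤ β → 0 ≤ γ → 0 < α + β + γ →
      (α + β + γ) * (N * X) = α * (-ξ i) + β * (-ξ j) + γ * (-ξ l) →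
      (α + β + γ) * (N * Y) = α * υ i + β * υ j + γ * υ l → False := by
    intro i j l α β γ X Y ha hb hc hs hX hY
    exact hC i j l α β γ (-X) Y ha hb hc hs (by linear_combination -hX) hY
  have hCxn : ∀ (i j l : Fin 4) (α β γ X Y : R), 0 ≤ α → 0 ≤ β → 0 ≤ γ → 0 < α + β + γ →
      (α + β + γ) * (N * X) = α * (-ξ i) + β * (-ξ j) + γ * (-ξ l) →
      (α + β + γ) * (N * Y) = α * (-υ i) + β * (-υ j) + γ * (-υ l) → False := by
    intro i j l α β γ X Y ha hb hc hs hX hY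
    exact hC i j l α β γ (-X) (-Y) ha hb hc hs (by linear_combination -hX)
      (by linear_combination -hY)
  have h1x : ∀ l : Fin 4, (-(e + W)) * N ≤ -ξ l ∧ -ξ l ≤ (-(e + W) + W) * N := by
    intro l
    obtain ⟨a1, a2⟩ := h1 l
    constructor
    · linarith
    · linarith
  rw [abs_lt]
  constructor
  · by_contra hcon
    rw [not_lt] at hcon
    rcases le_total (2 * ξ l) ((2 * e + W) * N) with hl | hl
    · exact side hv N hN ξ (fun l => -υ l) hCn e W hW h1 i j l hi hj hl (by linarith)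
    · exact side hv N hN (fun l => -ξ l) (fun l => -υ l) hCxn (-(e + W)) W hW h1x j i l
        (by linarith) (by linarith) (by linarith) (by linarith)
  · by_contra hcon
    rw [not_lt] at hcon
    rcases le_total (2 * ξ l) ((2 * e + W) * N) with hl | hl
    · exact side hv N hN ξ υ hC e W hW h1 i j l hi hj hl (by linarith)
    · exact side hv N hN (fun l => -ξ l) υ hCx (-(e + W)) W hW h1x j i l
        (by linarith) (by linarith) (by linarith) (by linarith)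

theorem descent (_hd : ∀ a : R, 0 < a → 1 ≤ a)
    (hv : ∀ a b : R, 0 < b → ∃ q, b * q ≤ a ∧ a < b * (q + 1))
    (N : R) (hN : 0 < N) (ξ υ : Fin 4 → R)
    (hC : ∀ (i j l : Fin 4) (α β γ X Y : R), 0 ≤ α → 0 ≤ β → 0 ≤ γ → 0 < α + β + γ →
      (α + β + γ) * (N * X) = α * ξ i + β * ξ j + γ * ξ l →
      (α + β + γ) * (N * Y) = α * υ i + β * υ j + γ * υ l → False)
    (e W : R) (hW : 14 ≤ W) (h1 : ∀ l, e * N ≤ ξ l ∧ ξ l ≤ (e + W) * N) (i j : Fin 4)
    (hi : ξ i < (e + 1) * N) (hj : (e + W - 1) * N < ξ j) :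
    ∃ k e' : R, ∀ l, e' * N ≤ υ l - k * ξ l ∧ υ l - k * ξ l ≤ (e' + (W - 1)) * N := by
  have hWN : 0 ≤ (W - 14) * N := mul_nonneg (by linarith) hN.le
  have hDp : 0 < ξ j - ξ i := by nlinarith
  obtain ⟨k, hk1, hk2⟩ := hv (2 * (υ j - υ i) + (ξ j - ξ i)) (2 * (ξ j - ξ i)) (by linarith)
  set w : Fin 4 → R := fun l => υ l - k * ξ l with hw
  have hC' : ∀ (i j l : Fin 4) (α β γ X Y : R), 0 ≤ α → 0 ≤ β → 0 ≤ γ → 0 < α + β + γ →
      (α + β + γ) * (N * X) = α * ξ i + β * ξ j + γ * ξ l →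
      (α + β + γ) * (N * Y) = α * w i + β * w j + γ * w l → False := by
    intro i j l α β γ X Y ha hb hc hs hX hY
    refine hC i j l α β γ X (Y + k * X) ha hb hc hs hX ?_
    simp only [hw] at hY
    linear_combination hY + k * hX
  have hcl := fun l => claim hv N hN ξ w hC' e W hW h1 i j l hi hj
  obtain ⟨l₀, hl₀⟩ := Finite.exists_min w
  obtain ⟨q, hq1, hq2⟩ := hv (w l₀) N hN
  refine ⟨k, q, fun l => ⟨?_, ?_⟩⟩
  · have := hl₀ l
    have e1 : υ l - k * ξ l = w l := rfl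
    rw [e1]
    linarith
  · have e1 : υ l - k * ξ l = w l := rfl
    rw [e1]
    have hd1 : -(ξ j - ξ i) ≤ 2 * (w j - w i) := by
      simp only [hw]
      linarith
    have hd2 : 2 * (w j - w i) ≤ ξ j - ξ i := by
      simp only [hw]
      linarith
    have hb1 : (w j - w i) * 2 * (ξ l - ξ l₀) ≤ (ξ j - ξ i) * (W * N) := by
      have a1 := h1 l
      have a2 := h1 l₀
      have a3 : |(w j - w i) * 2 * (ξ l - ξ l₀)| ≤ (ξ j - ξ i) * (W * N) := by
        rw [abs_mul]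
        exact mul_le_mul (abs_le.2 ⟨by linarith, by linarith⟩)
          (abs_le.2 ⟨by linarith, by linarith⟩) (abs_nonneg _) hDp.le
      exact (le_abs_self _).trans a3
    have hc1 := (abs_lt.1 (hcl l)).2
    have hc2 := (abs_lt.1 (hcl l₀)).1
    have hfin : 10 * (w l - w l₀) * (ξ j - ξ i) ≤ (5 * W + 24) * N * (ξ j - ξ i) := by
      linarith
    have h3 : 10 * (w l - w l₀) ≤ (5 * W + 24) * N := le_of_mul_le_mul_right hfin hDp
    linarith

end Pool.Agent.H20.FL
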