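import Pool.Agent.H20.FL.SD
import Pool.Agent.H20.E1.Blk

set_option autoImplicit false

/-!
# [H20 FL Syn] Formulas which are linear in the two first variables
-/

namespace Pool.Agent.H20.E1

/-- the variables below `k` occur only linearly, with coefficients in which none of them occurs -/
def Tm.LinO {N : ℕ} (k : ℕ) : Tm N → Prop
  | .var _ => True
  | .zero => True
  | .one => True
  | .add s t => s.LinO k ∧ t.LinO k
  | .mul s t => (s.NoV k ∧ t.LinO k) ∨ (s.LinO k ∧ t.NoV k)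

/-- the formula is quantifier-free, and in all its atoms the variables below `k` occur only linearly, with coefficients in which
none of them occurs -/
def Fml.LinO : {N : ℕ} → ℕ → Fml N → Prop
  | _, k, .lt s t => s.LinO k ∧ t.LinO k
  | _, k, .eq s t => s.LinO k ∧ t.LinO k
  | _, k, .neg φ => φ.LinO k
  | _, k, .and φ ψ => φ.LinO k ∧ ψ.LinO k
  | _, k, .or φ ψ => φ.LinO k ∧ ψ.LinO k
  | _, _, .ex _ _ => False
  | _, _, .all _ _ => False

end Pool.Agent.H20.E1

namespace Pool.Agent.H20.FL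

open Pool.Agent.H20.E1

theorem nov1 {n : ℕ} (s : Tm (n + 1)) (h : s.NoV 1) : ∃ A : ST n, ∀ (R : Type) [CommRing R]
    [LinearOrder R] (x : R) (v : Fin n → R), s.val (Fin.cons x v) = A.val v := by
  induction s with
  | var i =>
    obtain ⟨j, rfl⟩ := Fin.exists_succ_eq.2 (show i ≠ 0 by
      rintro rfl
      exact absurd h (by simp [Tm.NoV]))
    exact ⟨ST.of (.var j), fun R _ _ x v => by simp [Tm.val]⟩
  | zero => exact ⟨ST.zero, fun R _ _ x v => by simp [Tm.val]⟩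
  | one => exact ⟨ST.one, fun R _ _ x v => by simp [Tm.val]⟩
  | add s t ihs iht =>
    obtain ⟨A, hA⟩ := ihs h.1
    obtain ⟨B, hB⟩ := iht h.2
    exact ⟨A.add B, fun R _ _ x v => by simp [Tm.val, hA, hB]⟩
  | mul s t ihs iht =>
    obtain ⟨A, hA⟩ := ihs h.1
    obtain ⟨B, hB⟩ := iht h.2
    exact ⟨A.mul B, fun R _ _ x v => by simp [Tm.val, hA, hB]⟩

theorem nov2 {n : ℕ} (s : Tm (n + 2)) (h : s.NoV 2) : ∃ A : ST n, ∀ (R : Type) [CommRing R]
    [LinearOrder R] (x y : R) (v : Fin n → R),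
    s.val (Fin.cons y (Fin.cons x v : Fin (n + 1) → R) : Fin (n + 2) → R) = A.val v := by
  induction s with
  | var i =>
    obtain ⟨j, rfl⟩ := Fin.exists_succ_eq.2 (show i ≠ 0 by
      rintro rfl
      exact absurd h (by simp [Tm.NoV]))
    obtain ⟨l, rfl⟩ := Fin.exists_succ_eq.2 (show j ≠ 0 by
      rintro rfl
      exact absurd h (by simp [Tm.NoV]))
    exact ⟨ST.of (.var l), fun R _ _ x y v => by simp [Tm.val]⟩
  | zero => exact ⟨ST.zero, fun R _ _ x y v => by simp [Tm.val]⟩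
  | one => exact ⟨ST.one, fun R _ _ x y v => by simp [Tm.val]⟩
  | add s t ihs iht =>
    obtain ⟨A, hA⟩ := ihs h.1
    obtain ⟨B, hB⟩ := iht h.2
    exact ⟨A.add B, fun R _ _ x y v => by simp [Tm.val, hA, hB]⟩
  | mul s t ihs iht =>
    obtain ⟨A, hA⟩ := ihs h.1
    obtain ⟨B, hB⟩ := iht h.2
    exact ⟨A.mul B, fun R _ _ x y v => by simp [Tm.val, hA, hB]⟩

theorem lin1 {n : ℕ} (s : Tm (n + 1)) (h : s.LinO 1) : ∃ A B : ST n, ∀ (R : Type) [CommRing R]
    [LinearOrder R] (x : R) (v : Fin n → R), s.val (Fin.cons x v) = A.val v + B.val v * x := by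
  induction s with
  | var i =>
    refine Fin.cases ?_ (fun j => ?_) i
    · exact ⟨ST.zero, ST.one, fun R _ _ x v => by simp [Tm.val]⟩
    · exact ⟨ST.of (.var j), ST.zero, fun R _ _ x v => by simp [Tm.val]⟩
  | zero => exact ⟨ST.zero, ST.zero, fun R _ _ x v => by simp [Tm.val]⟩
  | one => exact ⟨ST.one, ST.zero, fun R _ _ x v => by simp [Tm.val]⟩
  | add s t ihs iht =>
    obtain ⟨A, B, hs⟩ := ihs h.1
    obtain ⟨A', B', ht⟩ := iht h.2
    exact ⟨A.add A', B.add B', fun R _ _ x v => by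
      simp only [Tm.val, hs, ht, ST.val_add]
      ring⟩
  | mul s t ihs iht =>
    rcases h with ⟨h1, h2⟩ | ⟨h1, h2⟩
    · obtain ⟨K, hK⟩ := nov1 s h1
      obtain ⟨A, B, ht⟩ := iht h2
      exact ⟨K.mul A, K.mul B, fun R _ _ x v => by
        simp only [Tm.val, hK, ht, ST.val_mul]
        ring⟩
    · obtain ⟨K, hK⟩ := nov1 t h2
      obtain ⟨A, B, hs⟩ := ihs h1
      exact ⟨K.mul A, K.mul B, fun R _ _ x v => by
        simp only [Tm.val, hK, hs, ST.val_mul]
        ring⟩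

theorem lin2 {n : ℕ} (s : Tm (n + 2)) (h : s.LinO 2) : ∃ A B C : ST n, ∀ (R : Type) [CommRing R]
    [LinearOrder R] (x y : R) (v : Fin n → R),
    s.val (Fin.cons y (Fin.cons x v : Fin (n + 1) → R) : Fin (n + 2) → R) =
      A.val v + B.val v * x + C.val v * y := by
  induction s with
  | var i =>
    refine Fin.cases ?_ (fun j => Fin.cases ?_ (fun l => ?_) j) i
    · exact ⟨ST.zero, ST.zero, ST.one, fun R _ _ x y v => by simp [Tm.val]⟩
    · exact ⟨ST.zero, ST.one, ST.zero, fun R _ _ x y v => by simp [Tm.val]⟩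
    · exact ⟨ST.of (.var l), ST.zero, ST.zero, fun R _ _ x y v => by simp [Tm.val]⟩
  | zero => exact ⟨ST.zero, ST.zero, ST.zero, fun R _ _ x y v => by simp [Tm.val]⟩
  | one => exact ⟨ST.one, ST.zero, ST.zero, fun R _ _ x y v => by simp [Tm.val]⟩
  | add s t ihs iht =>
    obtain ⟨A, B, C, hs⟩ := ihs h.1
    obtain ⟨A', B', C', ht⟩ := iht h.2
    exact ⟨A.add A', B.add B', C.add C', fun R _ _ x y v => by
      simp only [Tm.val, hs, ht, ST.val_add]
      ring⟩
  | mul s t ihs iht =>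
    rcases h with ⟨h1, h2⟩ | ⟨h1, h2⟩
    · obtain ⟨K, hK⟩ := nov2 s h1
      obtain ⟨A, B, C, ht⟩ := iht h2
      exact ⟨K.mul A, K.mul B, K.mul C, fun R _ _ x y v => by
        simp only [Tm.val, hK, ht, ST.val_mul]
        ring⟩
    · obtain ⟨K, hK⟩ := nov2 t h2
      obtain ⟨A, B, C, hs⟩ := ihs h1
      exact ⟨K.mul A, K.mul B, K.mul C, fun R _ _ x y v => by
        simp only [Tm.val, hK, hs, ST.val_mul]
        ring⟩

/-- a relation of `x`, `y` and the parameters which is a disjunction of conjunctions of linear constraints `≤ 0` -/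
def DN {n : ℕ} (P : ∀ (R : Type) [CommRing R] [LinearOrder R], R → R → (Fin n → R) → Prop) :
    Prop :=
  ∃ LL : List (List (ST n × ST n × ST n)), ∀ (R : Type) [CommRing R] [LinearOrder R]
    [IsStrictOrderedRing R], (∀ a : R, 0 < a → 1 ≤ a) → ∀ (x y : R) (v : Fin n → R),
    (P R x y v ↔ ∃ S ∈ LL, ∀ c ∈ S, c.1.val v + c.2.1.val v * x + c.2.2.val v * y ≤ 0)

theorem DN.or {n : ℕ} {P Q : ∀ (R : Type) [CommRing R] [LinearOrder R], R → R → (Fin n → R) → Prop}
    (h : DN P) (h' : DN Q) : DN (fun R _ _ x y v => P R x y v ∨ Q R x y v) := by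
  obtain ⟨L, h1⟩ := h
  obtain ⟨L', h2⟩ := h'
  refine ⟨L ++ L', fun R _ _ _ hd x y v => ?_⟩
  show (P R x y v ∨ Q R x y v) ↔ _
  rw [h1 R hd, h2 R hd]
  constructor
  · rintro (⟨S, hS, h⟩ | ⟨S, hS, h⟩)
    · exact ⟨S, List.mem_append_left _ hS, h⟩
    · exact ⟨S, List.mem_append_right _ hS, h⟩
  · rintro ⟨S, hS, h⟩
    rcases List.mem_append.1 hS with hS | hS
    · exact Or.inl ⟨S, hS, h⟩
    · exact Or.inr ⟨S, hS, h⟩

theorem DN.and {n : ℕ} {P Q : ∀ (R : Type) [CommRing R] [LinearOrder R], R → R → (Fin n → R) → Prop}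
    (h : DN P) (h' : DN Q) : DN (fun R _ _ x y v => P R x y v ∧ Q R x y v) := by
  obtain ⟨L, h1⟩ := h
  obtain ⟨L', h2⟩ := h'
  refine ⟨L.flatMap fun S => L'.map fun S' => S ++ S', fun R _ _ _ hd x y v => ?_⟩
  show (P R x y v ∧ Q R x y v) ↔ _
  rw [h1 R hd, h2 R hd]
  constructor
  · rintro ⟨⟨S, hS, h⟩, ⟨S', hS', h'⟩⟩
    refine ⟨S ++ S', List.mem_flatMap.2 ⟨S, hS, List.mem_map.2 ⟨S', hS', rfl⟩⟩, fun c hc => ?_⟩
    rcases List.mem_append.1 hc with hc | hc
    · exact h c hc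
    · exact h' c hc
  · rintro ⟨T, hT, h⟩
    obtain ⟨S, hS, hT⟩ := List.mem_flatMap.1 hT
    obtain ⟨S', hS', rfl⟩ := List.mem_map.1 hT
    exact ⟨⟨S, hS, fun c hc => h c (List.mem_append_left _ hc)⟩,
      ⟨S', hS', fun c hc => h c (List.mem_append_right _ hc)⟩⟩

theorem DN.lt {n : ℕ} (s t : Tm (n + 2)) (hs : s.LinO 2) (ht : t.LinO 2) :
    DN (n := n) (fun R _ _ x y v =>
      s.val (Fin.cons y (Fin.cons x v : Fin (n + 1) → R) : Fin (n + 2) → R) <
        t.val (Fin.cons y (Fin.cons x v : Fin (n + 1) → R) : Fin (n + 2) → R)) := by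
  obtain ⟨A, B, C, h1⟩ := lin2 s hs
  obtain ⟨A', B', C', h2⟩ := lin2 t ht
  refine ⟨[[((A.add ST.one).sub A', B.sub B', C.sub C')]], fun R _ _ _ hd x y v => ?_⟩
  simp only [List.mem_singleton, exists_eq_left, forall_eq, h1, h2, ST.val_sub, ST.val_add, ST.val_one]
  constructor
  · intro h
    have := hd _ (sub_pos.2 h)
    linarith
  · intro h
    linarith

theorem DN.le {n : ℕ} (s t : Tm (n + 2)) (hs : s.LinO 2) (ht : t.LinO 2) :
    DN (n := n) (fun R _ _ x y v =>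
      s.val (Fin.cons y (Fin.cons x v : Fin (n + 1) → R) : Fin (n + 2) → R) ≤
        t.val (Fin.cons y (Fin.cons x v : Fin (n + 1) → R) : Fin (n + 2) → R)) := by
  obtain ⟨A, B, C, h1⟩ := lin2 s hs
  obtain ⟨A', B', C', h2⟩ := lin2 t ht
  refine ⟨[[(A.sub A', B.sub B', C.sub C')]], fun R _ _ _ hd x y v => ?_⟩
  simp only [List.mem_singleton, exists_eq_left, forall_eq, h1, h2, ST.val_sub]
  constructor
  · intro h
    linarith
  · intro h
    linarith

theorem DN.congr {n : ℕ} {P Q : ∀ (R : Type) [CommRing R] [LinearOrder R], R → R → (Fin n → R) → Prop}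
    (h : DN P) (hPQ : ∀ (R : Type) [CommRing R] [LinearOrder R] (x y : R) (v : Fin n → R),
      (Q R x y v ↔ P R x y v)) : DN Q := by
  obtain ⟨L, h1⟩ := h
  exact ⟨L, fun R _ _ _ hd x y v => (hPQ R x y v).trans (h1 R hd x y v)⟩

theorem dnf_aux {n : ℕ} : (α : Fml (n + 2)) → α.LinO 2 →
    DN (n := n) (fun R _ _ x y v =>
      α.holds (Fin.cons y (Fin.cons x v : Fin (n + 1) → R) : Fin (n + 2) → R)) ∧
    DN (n := n) (fun R _ _ x y v =>
      ¬ α.holds (Fin.cons y (Fin.cons x v : Fin (n + 1) → R) : Fin (n + 2) → R))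
  | .lt s t, h => ⟨DN.lt s t h.1 h.2, (DN.le t s h.2 h.1).congr fun R _ _ x y v => by
      simp only [Fml.holds, not_lt]⟩
  | .eq s t, h => ⟨((DN.le s t h.1 h.2).and (DN.le t s h.2 h.1)).congr fun R _ _ x y v => by
      simp only [Fml.holds]
      exact le_antisymm_iff, ((DN.lt s t h.1 h.2).or (DN.lt t s h.2 h.1)).congr fun R _ _ x y v => by
      simp only [Fml.holds]
      exact ne_iff_lt_or_gt⟩
  | .neg φ, h => ⟨(dnf_aux φ h).2, (dnf_aux φ h).1.congr fun R _ _ x y v => by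
      simp only [Fml.holds, not_not]⟩
  | .and φ ψ, h => ⟨(dnf_aux φ h.1).1.and (dnf_aux ψ h.2).1,
      ((dnf_aux φ h.1).2.or (dnf_aux ψ h.2).2).congr fun R _ _ x y v => by
        simp only [Fml.holds]
        exact not_and_or⟩
  | .or φ ψ, h => ⟨(dnf_aux φ h.1).1.or (dnf_aux ψ h.2).1,
      ((dnf_aux φ h.1).2.and (dnf_aux ψ h.2).2).congr fun R _ _ x y v => by
        simp only [Fml.holds]
        exact not_or⟩
  | .ex _ _, h => h.elim
  | .all _ _, h => h.elim

/-- (L) the negation as a disjunction of conjunctions of linear constraints -/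
theorem dnf {n : ℕ} (α : Fml (n + 2)) (h : α.LinO 2) : ∃ LL : List (List (ST n × ST n × ST n)),
    ∀ (R : Type) [CommRing R] [LinearOrder R] [IsStrictOrderedRing R], (∀ a : R, 0 < a → 1 ≤ a) →
      ∀ (x y : R) (v : Fin n → R),
        (¬ α.holds (Fin.cons y (Fin.cons x v : Fin (n + 1) → R) : Fin (n + 2) → R) ↔
          ∃ S ∈ LL, ∀ c ∈ S, c.1.val v + c.2.1.val v * x + c.2.2.val v * y ≤ 0) :=
  (dnf_aux α h).2

end Pool.Agent.H20.FL
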