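import Pool.Agent.H20.FL.Leaf
import Pool.Agent.H20.FL.Syn
import Pool.Agent.H20.E1.QE2

set_option autoImplicit false

/-!
# Blocks of two linear quantifiers are uniformly `E_1` in the models of `IE_1`
-/

namespace Pool.Agent.H20.E1

/-- Boolean combinations of `OneA` formulas and of formulas with two quantifiers of one kind before a
quantifier-free formula, the two variables occurring only linearly, with coefficients free of them; the first of
them may occur linearly in the bound of the second -/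
inductive BoolTwo : {n : ℕ} → Fml n → Prop
  | oneA {n : ℕ} {φ : Fml n} : OneA φ → BoolTwo φ
  | all {n : ℕ} (t : Tm n) (s : Tm (n + 1)) (α : Fml (n + 2)) : s.LinO 1 → α.LinO 2 →
      BoolTwo (.all t (.all s α))
  | ex {n : ℕ} (t : Tm n) (s : Tm (n + 1)) (α : Fml (n + 2)) : s.LinO 1 → α.LinO 2 →
      BoolTwo (.ex t (.ex s α))
  | neg {n : ℕ} {φ : Fml n} : BoolTwo φ → BoolTwo (.neg φ)
  | and {n : ℕ} {φ ψ : Fml n} : BoolTwo φ → BoolTwo ψ → BoolTwo (.and φ ψ)
  | or {n : ℕ} {φ ψ : Fml n} : BoolTwo φ → BoolTwo ψ → BoolTwo (.or φ ψ)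

/-- formulas built by conjunction, disjunction and bounded existential quantification from these -/
inductive Two : {n : ℕ} → Fml n → Prop
  | base {n : ℕ} {φ : Fml n} : BoolTwo φ → Two φ
  | and {n : ℕ} {φ ψ : Fml n} : Two φ → Two ψ → Two (.and φ ψ)
  | or {n : ℕ} {φ ψ : Fml n} : Two φ → Two ψ → Two (.or φ ψ)
  | ex {n : ℕ} (t : Tm n) {φ : Fml (n + 1)} : Two φ → Two (.ex t φ)

end Pool.Agent.H20.E1

namespace Pool.Agent.H20.FL

open Pool.Agent.H20.E1

theorem D.split {n : ℕ} (rest : List (ST n × ST n × ST n)) : ∀ (Sm Sz Sp : List (ST n × ST n × ST n)),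
    (∀ Sm' Sz' Sp' : List (ST n × ST n × ST n), Sm ⊆ Sm' → Sz ⊆ Sz' → Sp ⊆ Sp' →
      D n (fun M v => (((∀ c ∈ Sm', c.2.2.val v < 0) ∧ (∀ c ∈ Sz', c.2.2.val v = 0) ∧
        (∀ c ∈ Sp', 0 < c.2.2.val v)) ∧ ∀ x y : M.R, ∃ c ∈ Sm' ++ Sz' ++ Sp',
          0 < c.1.val v + c.2.1.val v * x + c.2.2.val v * y))) →
    D n (fun M v => (((∀ c ∈ Sm, c.2.2.val v < 0) ∧ (∀ c ∈ Sz, c.2.2.val v = 0) ∧
      (∀ c ∈ Sp, 0 < c.2.2.val v)) ∧ ∀ x y : M.R, ∃ c ∈ Sm ++ Sz ++ Sp ++ rest,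
        0 < c.1.val v + c.2.1.val v * x + c.2.2.val v * y)) := by
  induction rest with
  | nil =>
    intro Sm Sz Sp h
    refine (h Sm Sz Sp (List.Subset.refl _) (List.Subset.refl _) (List.Subset.refl _)).congr ?_
    intro M v _
    simp only [List.append_nil]
  | cons c rest ih =>
    intro Sm Sz Sp h
    have h1 := ih (c :: Sm) Sz Sp (fun a b d ha hb hd' => h a b d
      (fun x hx => ha (List.mem_cons_of_mem _ hx)) hb hd')
    have h2 := ih Sm (c :: Sz) Sp (fun a b d ha hb hd' => h a b d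
      ha (fun x hx => hb (List.mem_cons_of_mem _ hx)) hd')
    have h3 := ih Sm Sz (c :: Sp) (fun a b d ha hb hd' => h a b d
      ha hb (fun x hx => hd' (List.mem_cons_of_mem _ hx)))
    refine (h1.or (h2.or h3)).congr ?_
    intro M v _
    have m1 : ∀ d, d ∈ (c :: Sm) ++ Sz ++ Sp ++ rest ↔ d ∈ Sm ++ Sz ++ Sp ++ (c :: rest) := by
      intro d; simp only [List.mem_append, List.mem_cons]; tauto
    have m2 : ∀ d, d ∈ Sm ++ (c :: Sz) ++ Sp ++ rest ↔ d ∈ Sm ++ Sz ++ Sp ++ (c :: rest) := by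
      intro d; simp only [List.mem_append, List.mem_cons]; tauto
    have m3 : ∀ d, d ∈ Sm ++ Sz ++ (c :: Sp) ++ rest ↔ d ∈ Sm ++ Sz ++ Sp ++ (c :: rest) := by
      intro d; simp only [List.mem_append, List.mem_cons]; tauto
    simp only [m1, m2, m3]
    constructor
    · rintro ⟨⟨g1, g2, g3⟩, g4⟩
      rcases lt_trichotomy (c.2.2.val v) 0 with hc | hc | hc
      · exact Or.inl ⟨⟨fun d hd' => by
          rcases List.mem_cons.1 hd' with rfl | hd'
          · exact hc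
          · exact g1 d hd', g2, g3⟩, g4⟩
      · exact Or.inr (Or.inl ⟨⟨g1, fun d hd' => by
          rcases List.mem_cons.1 hd' with rfl | hd'
          · exact hc
          · exact g2 d hd', g3⟩, g4⟩)
      · exact Or.inr (Or.inr ⟨⟨g1, g2, fun d hd' => by
          rcases List.mem_cons.1 hd' with rfl | hd'
          · exact hc
          · exact g3 d hd'⟩, g4⟩)
    · rintro (⟨⟨g1, g2, g3⟩, g4⟩ | ⟨⟨g1, g2, g3⟩, g4⟩ | ⟨⟨g1, g2, g3⟩, g4⟩)
      · exact ⟨⟨fun d hd' => g1 d (List.mem_cons_of_mem _ hd'), g2, g3⟩, g4⟩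
      · exact ⟨⟨g1, fun d hd' => g2 d (List.mem_cons_of_mem _ hd'), g3⟩, g4⟩
      · exact ⟨⟨g1, g2, fun d hd' => g3 d (List.mem_cons_of_mem _ hd')⟩, g4⟩

theorem D.all2 {n : ℕ} (t : Tm n) (s : Tm (n + 1)) (α : Fml (n + 2)) (hs : s.LinO 1) (hα : α.LinO 2) :
    D n (fun _ v => (Fml.all t (.all s α)).holds v) := by
  obtain ⟨A, B, hAB⟩ := lin1 s hs
  obtain ⟨LL, hLL⟩ := dnf α hα
  let Sm : List (ST n × ST n × ST n) := [(ST.zero, ST.zero, ST.one.neg)]
  let Sz : List (ST n × ST n × ST n) :=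
    [(ST.zero, ST.one.neg, ST.zero), ((ST.of t).neg, ST.one, ST.zero)]
  let Sp : List (ST n × ST n × ST n) := [(A.neg, B.neg, ST.one)]
  have h1 := D.ball LL (fun S _ => D.split S Sm Sz Sp (fun Sm' Sz' Sp' h1 h2 h3 =>
    D.leaf Sm' Sz' Sp' (ST.of t) (h2 (List.mem_cons_self ..))
      (h2 (List.mem_cons_of_mem _ (List.mem_cons_self ..)))
      (List.ne_nil_of_mem (h1 (List.mem_cons_self ..)))
      (List.ne_nil_of_mem (h3 (List.mem_cons_self ..)))))
  refine h1.congr ?_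
  intro M v _
  have hbox : ∀ (S : List (ST n × ST n × ST n)) (x y : M.R),
      (∃ c ∈ Sm ++ Sz ++ Sp ++ S, 0 < c.1.val v + c.2.1.val v * x + c.2.2.val v * y) ↔
      ((0 ≤ x ∧ x ≤ t.val v ∧ 0 ≤ y ∧ y ≤ s.val (Fin.cons x v : Fin (n + 1) → M.R)) →
        ∃ c ∈ S, 0 < c.1.val v + c.2.1.val v * x + c.2.2.val v * y) := by
    intro S x y
    rw [hAB]
    simp only [Sm, Sz, Sp, List.cons_append, List.nil_append, List.mem_cons, exists_eq_or_imp,
      ST.val_zero, ST.val_one, ST.val_neg, ST.val_of]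
    constructor
    · rintro (h | h | h | h | h) ⟨k1, k2, k3, k4⟩
      · linarith
      · linarith
      · linarith
      · linarith
      · exact h
    · intro h
      by_cases hb : 0 ≤ x ∧ x ≤ t.val v ∧ 0 ≤ y ∧ y ≤ A.val v + B.val v * x
      · exact Or.inr (Or.inr (Or.inr (Or.inr (h hb))))
      · by_contra hcon
        push Not at hcon
        obtain ⟨k1, k2, k3, k4, -⟩ := hcon
        exact hb ⟨by linarith, by linarith, by linarith, by linarith⟩
  have hg : (∀ c ∈ Sm, c.2.2.val v < 0) ∧ (∀ c ∈ Sz, c.2.2.val v = 0) ∧ (∀ c ∈ Sp, 0 < c.2.2.val v) := by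
    refine ⟨?_, ?_, ?_⟩
    · intro c hc
      rw [List.mem_singleton] at hc
      subst hc
      simp
    · intro c hc
      simp only [Sz, List.mem_cons, List.not_mem_nil, or_false] at hc
      rcases hc with rfl | rfl <;> simp
    · intro c hc
      rw [List.mem_singleton] at hc
      subst hc
      simp
  simp only [hbox]
  constructor
  · intro h S hS
    refine ⟨hg, fun x y hb => ?_⟩
    by_contra hcon
    push Not at hcon
    have h2 := h x hb.1 hb.2.1 y hb.2.2.1 hb.2.2.2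
    exact (hLL M.R M.hd x y v).2 ⟨S, hS, hcon⟩ h2
  · intro h x hx0 hxt y hy0 hys
    by_contra hcon
    obtain ⟨S, hS, hSc⟩ := (hLL M.R M.hd x y v).1 hcon
    obtain ⟨c, hc, hc2⟩ := (h S hS).2 x y ⟨hx0, hxt, hy0, hys⟩
    exact absurd hc2 (not_lt.2 (hSc c hc))

theorem LinO.isQF {n k : ℕ} {α : Fml n} (h : α.LinO k) : α.IsQF := by
  induction α with
  | lt s t => trivial
  | eq s t => trivial
  | neg φ ih => exact ih h
  | and φ ψ ih1 ih2 => exact ⟨ih1 h.1, ih2 h.2⟩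
  | or φ ψ ih1 ih2 => exact ⟨ih1 h.1, ih2 h.2⟩
  | ex t φ ih => exact h.elim
  | all t φ ih => exact h.elim

/-- the underlying model of `IOpen` -/
def Md.toMdl (M : Md) : Mdl := ⟨M.R, ⟨M.io.disc, fun n θ hθ => M.io.ind n θ (.qf hθ)⟩⟩

theorem D.tame {n : ℕ} {φ : Fml n} (h : Tame φ) : D n (fun _ v => φ.holds v) := by
  obtain ⟨ψ, h1, h2⟩ := tame_e1d h
  exact ⟨ψ, h1, fun M v hv => h2 M.toMdl v hv⟩

theorem D.exs_ex {n : ℕ} (t : Tm n) (s : Tm (n + 1)) (α : Fml (n + 2)) (hα : α.LinO 2) :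
    D n (fun _ v => (Fml.ex t (.ex s α)).holds v) :=
  ⟨_, .ex t (.ex s (.qf (LinO.isQF hα))), fun _ _ _ => Iff.rfl⟩

theorem D.boolTwo {n : ℕ} {φ : Fml n} (h : BoolTwo φ) :
    D n (fun _ v => φ.holds v) ∧ D n (fun _ v => ¬ φ.holds v) := by
  induction h with
  | oneA h => exact ⟨D.tame (.one h), D.tame (.one (.neg h))⟩
  | all t s α hs hα =>
    refine ⟨D.all2 t s α hs hα, (D.exs_ex t s (.neg α) hα).congr ?_⟩
    intro M v _
    simp only [Fml.holds]
    push Not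
    rfl
  | ex t s α hs hα =>
    refine ⟨D.exs_ex t s α hα, (D.all2 t s (.neg α) hs hα).congr ?_⟩
    intro M v _
    simp only [Fml.holds]
    push Not
    rfl
  | neg _ ih =>
    refine ⟨ih.2, ih.1.congr ?_⟩
    intro M v _
    simp only [Fml.holds, not_not]
  | and _ _ ih1 ih2 =>
    refine ⟨ih1.1.and ih2.1, (ih1.2.or ih2.2).congr ?_⟩
    intro M v _
    simp only [Fml.holds]
    exact not_and_or
  | or _ _ ih1 ih2 =>
    refine ⟨ih1.1.or ih2.1, (ih1.2.and ih2.2).congr ?_⟩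
    intro M v _
    simp only [Fml.holds]
    exact not_or

theorem D.two {n : ℕ} {φ : Fml n} (h : Two φ) : D n (fun _ v => φ.holds v) := by
  induction h with
  | base h => exact (D.boolTwo h).1
  | and _ _ ih1 ih2 => exact ih1.and ih2
  | or _ _ ih1 ih2 => exact ih1.or ih2
  | ex t _ ih => exact D.ex t ih

end Pool.Agent.H20.FL
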