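import Pool.Agent.H20.FL.Defs

set_option autoImplicit false

/-!
# Flatness of trapezoids without lattice points over discretely ordered rings
-/

namespace Pool.Agent.H20.FL

variable {R : Type} [CommRing R] [LinearOrder R] [IsStrictOrderedRing R]

/-- the statement of the descent step -/
def DescentStatement (R : Type) [CommRing R] [LinearOrder R] [IsStrictOrderedRing R] : Prop :=
  ∀ (N : R) (_ : 0 < N) (ξ υ : Fin 4 → R)
    (_ : ∀ (i j l : Fin 4) (α β γ X Y : R), 0 ≤ α → 0 ≤ β → 0 ≤ γ → 0 < α + β + γ →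
      (α + β + γ) * (N * X) = α * ξ i + β * ξ j + γ * ξ l →
      (α + β + γ) * (N * Y) = α * υ i + β * υ j + γ * υ l → False)
    (e W : R) (_ : 14 ≤ W) (_ : ∀ l, e * N ≤ ξ l ∧ ξ l ≤ (e + W) * N) (i j : Fin 4)
    (_ : ξ i < (e + 1) * N) (_ : (e + W - 1) * N < ξ j),
    ∃ k e' : R, ∀ l, e' * N ≤ υ l - k * ξ l ∧ υ l - k * ξ l ≤ (e' + (W - 1)) * N

/-- the bound for the offset of a strip -/
lemma ebound {N e w w0 M S : R} (hN : 1 ≤ N) (h1 : e * N ≤ M) (h2 : M ≤ (e + w) * N)
    (hM : |M| ≤ S) (hw : w ≤ w0) (hw0 : 0 ≤ w0) : |e| ≤ S + w0 := by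
  obtain ⟨hM1, hM2⟩ := abs_le.1 hM
  have hS : 0 ≤ S := (abs_nonneg M).trans hM
  rw [abs_le]
  constructor
  · rcases le_or_gt 0 (e + w) with h | h
    · linarith
    · have h3 : (e + w) * N ≤ e + w := by nlinarith
      linarith
  · rcases le_or_gt e 0 with h | h
    · linarith
    · have h3 : e ≤ e * N := by nlinarith
      linarith

/-- a combination of points satisfying a linear inequality satisfies it -/
lemma comb_le {α β γ u v w u' v' w' : R} (hα : 0 ≤ α) (hβ : 0 ≤ β) (hγ : 0 ≤ γ)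
    (h1 : u ≤ u') (h2 : v ≤ v') (h3 : w ≤ w') :
    α * u + β * v + γ * w ≤ α * u' + β * v' + γ * w' := by
  have := mul_le_mul_of_nonneg_left h1 hα
  have := mul_le_mul_of_nonneg_left h2 hβ
  have := mul_le_mul_of_nonneg_left h3 hγ
  linarith

theorem flat_of_descent (hdes : DescentStatement R)
    (hd : ∀ a : R, 0 < a → 1 ≤ a)
    (x0 x1 a b c a' b' c' B B' : R) (hc : 0 < c) (hc' : 0 < c') (hx : x0 < x1)
    (h0 : 1 ≤ (a' * x0 + b') * c - (a * x0 + b) * c')
    (h1 : 1 ≤ (a' * x1 + b') * c - (a * x1 + b) * c')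
    (hno : ∀ x y, ¬ In x0 x1 a b c a' b' c' x y)
    (hB : (x1 - x0) * (c * c') * (1 + c' * |a|) ≤ B)
    (hB' : B * (|c * c' * x0| + |c' * (a * x0 + b)|) + (x1 - x0) ≤ B')
    (hL : ∀ W0 : R, 0 ≤ W0 → E (c * c') (vx x0 x1 c c') (vy x0 x1 a b c a' b' c') B B' W0 →
      ∃ W, 0 ≤ W ∧ W ≤ W0 ∧ E (c * c') (vx x0 x1 c c') (vy x0 x1 a b c a' b' c') B B' W ∧
        ∀ W', 0 ≤ W' → W' < W → ¬ E (c * c') (vx x0 x1 c c') (vy x0 x1 a b c a' b' c') B B' W') :
    ∃ W, 0 ≤ W ∧ W ≤ 13 ∧ E (c * c') (vx x0 x1 c c') (vy x0 x1 a b c a' b' c') B B' W := by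
  set N := c * c' with hN
  set ξ := vx x0 x1 c c' with hξ
  set υ := vy x0 x1 a b c a' b' c' with hυ
  have hN0 : 0 < N := mul_pos hc hc'
  have hN1 : 1 ≤ N := hd N hN0
  have hx1 : 1 ≤ x1 - x0 := hd _ (by linarith)
  have hca : 0 ≤ c' * |a| := mul_nonneg hc'.le (abs_nonneg a)
  have hxN : 1 ≤ (x1 - x0) * N := by nlinarith
  have hxB : (x1 - x0) * N ≤ B := by nlinarith
  have hB1 : 1 ≤ B := hxN.trans hxB
  -- the coordinates
  have e0 : ξ 0 = N * x0 := rfl
  have e1 : ξ 1 = N * x0 := rfl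
  have e2 : ξ 2 = N * x1 := rfl
  have e3 : ξ 3 = N * x1 := rfl
  have f0 : υ 0 = c' * (a * x0 + b) := rfl
  have f1 : υ 1 = c * (a' * x0 + b') := rfl
  have f2 : υ 2 = c' * (a * x1 + b) := rfl
  have f3 : υ 3 = c * (a' * x1 + b') := rfl
  have hS0 : 0 ≤ |N * x0| + |c' * (a * x0 + b)| := by positivity
  -- bound for the value at the vertex `0`
  have hM : ∀ p q : R, |p| ≤ B → |q| ≤ B →
      |p * ξ 0 + q * υ 0| ≤ B * (|N * x0| + |c' * (a * x0 + b)|) := by
    intro p q hp hq
    rw [e0, f0]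
    refine (abs_add_le _ _).trans ?_
    rw [abs_mul p (N * x0), abs_mul q (c' * (a * x0 + b)),
      mul_add B |N * x0| |c' * (a * x0 + b)|]
    exact add_le_add (mul_le_mul_of_nonneg_right hp (abs_nonneg _))
      (mul_le_mul_of_nonneg_right hq (abs_nonneg _))
  -- start
  have hstart : E N ξ υ B B' (x1 - x0) := by
    refine ⟨1, 0, 0, 1, x0, ?_, ?_, ?_, ?_, ?_, by ring, ?_⟩
    · rwa [abs_one]
    · rw [abs_zero]; linarith
    · rw [abs_zero]; linarith
    · rwa [abs_one]
    · have k1 : |N * x0| = N * |x0| := by rw [abs_mul, abs_of_pos hN0]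
      have k2 : |x0| ≤ |N * x0| := by
        rw [k1]
        nlinarith [abs_nonneg x0]
      have k3 : |N * x0| + |c' * (a * x0 + b)| ≤ B * (|N * x0| + |c' * (a * x0 + b)|) := by
        nlinarith
      have k4 := abs_nonneg (c' * (a * x0 + b))
      linarith
    · intro l
      fin_cases l
      · change x0 * N ≤ 1 * ξ 0 + 0 * υ 0 ∧ 1 * ξ 0 + 0 * υ 0 ≤ (x0 + (x1 - x0)) * N
        rw [e0]
        constructor <;> nlinarith
      · change x0 * N ≤ 1 * ξ 1 + 0 * υ 1 ∧ 1 * ξ 1 + 0 * υ 1 ≤ (x0 + (x1 - x0)) * N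
        rw [e1]
        constructor <;> nlinarith
      · change x0 * N ≤ 1 * ξ 2 + 0 * υ 2 ∧ 1 * ξ 2 + 0 * υ 2 ≤ (x0 + (x1 - x0)) * N
        rw [e2]
        constructor <;> nlinarith
      · change x0 * N ≤ 1 * ξ 3 + 0 * υ 3 ∧ 1 * ξ 3 + 0 * υ 3 ≤ (x0 + (x1 - x0)) * N
        rw [e3]
        constructor <;> nlinarith
  obtain ⟨W, hW0, hWx, hWE, hWmin⟩ := hL (x1 - x0) (by linarith) hstart
  rcases le_or_gt W 13 with h13 | h13
  · exact ⟨W, hW0, h13, hWE⟩
  exfalso
  have h14 : 14 ≤ W := by linarith [hd (W - 13) (by linarith)]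
  have hno1 : ¬ E N ξ υ B B' (W - 1) := hWmin (W - 1) (by linarith) (by linarith)
  obtain ⟨p, q, r, s, e, hp, hq, hr, hs, he, hdet, hst⟩ := hWE
  -- offsets of strips of width `W - 1`
  have heb : ∀ p q e : R, |p| ≤ B → |q| ≤ B → e * N ≤ p * ξ 0 + q * υ 0 →
      p * ξ 0 + q * υ 0 ≤ (e + (W - 1)) * N → |e| ≤ B' := by
    intro p q e hp hq k1 k2
    exact (ebound hN1 k1 k2 (hM p q hp hq) (by linarith : W - 1 ≤ x1 - x0) (by linarith)).trans hB'
  -- a vertex near the upper side
  obtain ⟨j, hj⟩ : ∃ j, (e + W - 1) * N < p * ξ j + q * υ j := by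
    by_contra hcon
    push Not at hcon
    refine hno1 ⟨p, q, r, s, e, hp, hq, hr, hs, he, hdet, fun l => ⟨(hst l).1, ?_⟩⟩
    rw [show e + (W - 1) = e + W - 1 by ring]
    exact hcon l
  -- a vertex near the lower side
  obtain ⟨i, hi⟩ : ∃ i, p * ξ i + q * υ i < (e + 1) * N := by
    by_contra hcon
    push Not at hcon
    have hup : ∀ l, p * ξ l + q * υ l ≤ (e + 1 + (W - 1)) * N := by
      intro l
      rw [show e + 1 + (W - 1) = e + W by ring]
      exact (hst l).2
    exact hno1 ⟨p, q, r, s, e + 1, hp, hq, hr, hs, heb p q (e + 1) hp hq (hcon 0) (hup 0), hdet,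
      fun l => ⟨hcon l, hup l⟩⟩
  -- the inequalities of the trapezoid at the vertices
  have g1 : ∀ l, N * x0 ≤ ξ l := by
    intro l
    fin_cases l
    · exact e0.ge
    · exact e1.ge
    · change N * x0 ≤ ξ 2
      rw [e2]; nlinarith
    · change N * x0 ≤ ξ 3
      rw [e3]; nlinarith
  have g2 : ∀ l, ξ l ≤ N * x1 := by
    intro l
    fin_cases l
    · change ξ 0 ≤ _
      rw [e0]; nlinarith
    · change ξ 1 ≤ _
      rw [e1]; nlinarith
    · exact e2.le
    · exact e3.le
  have g3 : ∀ l, a * ξ l + N * b ≤ c * υ l := by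
    intro l
    fin_cases l
    · change a * ξ 0 + N * b ≤ c * υ 0
      rw [e0, f0, hN]; apply le_of_eq; ring
    · change a * ξ 1 + N * b ≤ c * υ 1
      rw [e1, f1, hN]
      nlinarith
    · change a * ξ 2 + N * b ≤ c * υ 2
      rw [e2, f2, hN]; apply le_of_eq; ring
    · change a * ξ 3 + N * b ≤ c * υ 3
      rw [e3, f3, hN]
      nlinarith
  have g4 : ∀ l, c' * υ l ≤ a' * ξ l + N * b' := by
    intro l
    fin_cases l
    · change c' * υ 0 ≤ a' * ξ 0 + N * b'
      rw [e0, f0, hN]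
      nlinarith
    · change c' * υ 1 ≤ a' * ξ 1 + N * b'
      rw [e1, f1, hN]; apply le_of_eq; ring
    · change c' * υ 2 ≤ a' * ξ 2 + N * b'
      rw [e2, f2, hN]
      nlinarith
    · change c' * υ 3 ≤ a' * ξ 3 + N * b'
      rw [e3, f3, hN]; apply le_of_eq; ring
  -- descent
  obtain ⟨k, e', hk⟩ := hdes N hN0 (fun l => p * ξ l + q * υ l) (fun l => r * ξ l + s * υ l)
    (by
      intro i j l α β γ X Y hα hβ hγ hσ hX hY
      have hσN : 0 < (α + β + γ) * N := mul_pos hσ hN0
      have hx' : (α + β + γ) * N * (s * X - q * Y) = α * ξ i + β * ξ j + γ * ξ l := by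
        linear_combination s * hX - q * hY + (α * ξ i + β * ξ j + γ * ξ l) * hdet
      have hy' : (α + β + γ) * N * (p * Y - r * X) = α * υ i + β * υ j + γ * υ l := by
        linear_combination p * hY - r * hX + (α * υ i + β * υ j + γ * υ l) * hdet
      refine hno (s * X - q * Y) (p * Y - r * X) ⟨?_, ?_, ?_, ?_⟩
      · refine le_of_mul_le_mul_left ?_ hσN
        rw [hx']
        have := comb_le hα hβ hγ (g1 i) (g1 j) (g1 l)
        linarith
      · refine le_of_mul_le_mul_left ?_ hσN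
        rw [hx']
        have := comb_le hα hβ hγ (g2 i) (g2 j) (g2 l)
        linarith
      · refine le_of_mul_le_mul_left ?_ hσN
        have k1 := comb_le hα hβ hγ (g3 i) (g3 j) (g3 l)
        have k2 : (α + β + γ) * N * (a * (s * X - q * Y) + b)
            = α * (a * ξ i + N * b) + β * (a * ξ j + N * b) + γ * (a * ξ l + N * b) := by
          linear_combination a * hx'
        have k3 : (α + β + γ) * N * (c * (p * Y - r * X))
            = α * (c * υ i) + β * (c * υ j) + γ * (c * υ l) := by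
          linear_combination c * hy'
        rw [k2, k3]
        exact k1
      · refine le_of_mul_le_mul_left ?_ hσN
        have k1 := comb_le hα hβ hγ (g4 i) (g4 j) (g4 l)
        have k2 : (α + β + γ) * N * (a' * (s * X - q * Y) + b')
            = α * (a' * ξ i + N * b') + β * (a' * ξ j + N * b') + γ * (a' * ξ l + N * b') := by
          linear_combination a' * hx'
        have k3 : (α + β + γ) * N * (c' * (p * Y - r * X))
            = α * (c' * υ i) + β * (c' * υ j) + γ * (c' * υ l) := by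
          linear_combination c' * hy'
        rw [k2, k3]
        exact k1)
    e W h14 hst i j hi hj
  have hk' : ∀ l, e' * N ≤ (r - k * p) * ξ l + (s - k * q) * υ l ∧
      (r - k * p) * ξ l + (s - k * q) * υ l ≤ (e' + (W - 1)) * N := by
    intro l
    have h := hk l
    have e4 : r * ξ l + s * υ l - k * (p * ξ l + q * υ l)
        = (r - k * p) * ξ l + (s - k * q) * υ l := by ring
    rw [e4] at h
    exact h
  -- bound for the new `q`
  have hWN : (W - 1) * N ≤ (x1 - x0) * N := by nlinarith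
  have hq' : |s - k * q| ≤ (x1 - x0) * N := by
    have hdiff : |(s - k * q) * (υ 1 - υ 0)| ≤ (x1 - x0) * N := by
      have k0 := hk' 0
      have k1 := hk' 1
      rw [e0] at k0
      rw [e1] at k1
      rw [abs_le]
      constructor <;> nlinarith
    have hge : 1 ≤ υ 1 - υ 0 := by
      rw [f1, f0]
      linarith
    rw [abs_mul, abs_of_pos (by linarith : 0 < υ 1 - υ 0)] at hdiff
    nlinarith [abs_nonneg (s - k * q)]
  -- bound for the new `p`
  have hp' : |r - k * p| ≤ B := by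
    have hdiff : |((r - k * p) * N + (s - k * q) * (c' * a)) * (x1 - x0)| ≤ N * (x1 - x0) := by
      have k0 := hk' 0
      have k1 := hk' 2
      rw [e0, f0] at k0
      rw [e2, f2] at k1
      rw [abs_le]
      constructor <;> nlinarith
    rw [abs_mul, abs_of_pos (by linarith : 0 < x1 - x0)] at hdiff
    have h5 : |(r - k * p) * N + (s - k * q) * (c' * a)| ≤ N :=
      le_of_mul_le_mul_right hdiff (by linarith)
    have h6 : |(r - k * p) * N| ≤ N + |(s - k * q) * (c' * a)| := by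
      have e5 : (r - k * p) * N
          = ((r - k * p) * N + (s - k * q) * (c' * a)) - (s - k * q) * (c' * a) := by ring
      rw [e5]
      exact (abs_sub _ _).trans (by linarith)
    rw [abs_mul, abs_of_pos hN0, abs_mul, abs_mul, abs_of_pos hc'] at h6
    have h7 : |s - k * q| * (c' * |a|) ≤ (x1 - x0) * N * (c' * |a|) :=
      mul_le_mul_of_nonneg_right hq' hca
    have h8 : |r - k * p| ≤ |r - k * p| * N := by nlinarith [abs_nonneg (r - k * p)]
    have h9 : N ≤ (x1 - x0) * N := by nlinarith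
    nlinarith
  refine hno1 ⟨r - k * p, s - k * q, -p, -q, e', hp', hq'.trans hxB, ?_, ?_,
    heb _ _ e' hp' (hq'.trans hxB) (hk' 0).1 (hk' 0).2, ?_, hk'⟩
  · rwa [abs_neg]
  · rwa [abs_neg]
  · linear_combination hdet

end Pool.Agent.H20.FL
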