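import Mathlib

set_option autoImplicit false

/-!
# Integer Helly in dimension one, over a discretely ordered ring with division with remainder
-/

namespace Pool.Agent.H20.FL

section

variable {R : Type} [CommRing R] [LinearOrder R] [IsStrictOrderedRing R]

/-- the least upper bound given by the constraints with positive coefficient -/
theorem exists_least (hv : ∀ a b : R, 0 < b → ∃ q, b * q ≤ a ∧ a < b * (q + 1)) (L : List (R × R)) :
    (∀ e ∈ L, e.2 ≤ 0) ∨ ∃ d ∈ L, ∃ w : R, 0 < d.2 ∧ d.2 * w ≤ -d.1 ∧ -d.1 < d.2 * (w + 1) ∧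
      ∀ e ∈ L, 0 < e.2 → e.1 + e.2 * w ≤ 0 := by
  induction L with
  | nil => exact Or.inl (by simp)
  | cons c L ih =>
    rcases le_or_gt c.2 0 with hc | hc
    · rcases ih with h | ⟨d, hd, w, h1, h2, h3, h4⟩
      · refine Or.inl fun e he => ?_
        rcases List.mem_cons.1 he with rfl | he
        · exact hc
        · exact h e he
      · refine Or.inr ⟨d, List.mem_cons_of_mem _ hd, w, h1, h2, h3, fun e he he2 => ?_⟩
        rcases List.mem_cons.1 he with rfl | he
        · exact absurd he2 (not_lt.2 hc)
        · exact h4 e he he2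
    · obtain ⟨q, hq1, hq2⟩ := hv (-c.1) c.2 hc
      rcases ih with h | ⟨d, hd, w, h1, h2, h3, h4⟩
      · refine Or.inr ⟨c, List.mem_cons_self, q, hc, hq1, hq2, fun e he he2 => ?_⟩
        rcases List.mem_cons.1 he with rfl | he
        · linarith
        · exact absurd he2 (not_lt.2 (h e he))
      · rcases le_or_gt q w with hqw | hqw
        · refine Or.inr ⟨c, List.mem_cons_self, q, hc, hq1, hq2, fun e he he2 => ?_⟩
          rcases List.mem_cons.1 he with rfl | he
          · linarith
          · have h5 := h4 e he he2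
            have h6 := mul_le_mul_of_nonneg_left hqw he2.le
            linarith
        · refine Or.inr ⟨d, List.mem_cons_of_mem _ hd, w, h1, h2, h3, fun e he he2 => ?_⟩
          rcases List.mem_cons.1 he with rfl | he
          · have h6 := mul_le_mul_of_nonneg_left hqw.le hc.le
            linarith
          · exact h4 e he he2

/-- a large value satisfies all constraints with negative coefficient -/
theorem exists_large (hd : ∀ a : R, 0 < a → 1 ≤ a) (L : List (R × R)) :
    ∃ u : R, 0 ≤ u ∧ ∀ e ∈ L, e.2 < 0 → e.1 + e.2 * u ≤ 0 := by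
  induction L with
  | nil => exact ⟨0, le_rfl, by simp⟩
  | cons c L ih =>
    obtain ⟨u, hu, h⟩ := ih
    refine ⟨max u |c.1|, hu.trans (le_max_left _ _), fun e he he2 => ?_⟩
    rcases List.mem_cons.1 he with rfl | he
    · have h1 : 1 ≤ -e.2 := hd _ (by linarith)
      have h2 : |e.1| ≤ max u |e.1| := le_max_right _ _
      have h3 : 0 ≤ max u |e.1| := hu.trans (le_max_left _ _)
      have h4 := mul_le_mul_of_nonneg_right h1 h3
      have h5 := le_abs_self e.1
      linarith
    · have h1 := h e he he2
      have h2 := mul_le_mul_of_nonneg_left (le_max_left u |c.1|) (neg_nonneg.2 he2.le)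
      linarith

/-- Finitely many constraints `c.1 + c.2 * u ≤ 0` on one integer variable `u` have no common solution
if and only if one of them or two of them have none. -/
theorem one_dim (hd : ∀ a : R, 0 < a → 1 ≤ a)
    (hv : ∀ a b : R, 0 < b → ∃ q, b * q ≤ a ∧ a < b * (q + 1)) (L : List (R × R)) :
    (∀ u : R, ∃ c ∈ L, 0 < c.1 + c.2 * u) ↔
      (∃ c ∈ L, c.2 = 0 ∧ 0 < c.1) ∨ ∃ c ∈ L, ∃ d ∈ L, ∃ w : R, |w| ≤ |c.1| + |d.1| + 1 ∧
        c.2 < 0 ∧ -c.2 * w < c.1 ∧ 0 < d.2 ∧ 0 < d.1 + d.2 * (w + 1) := by
  constructor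
  · intro h
    by_cases h0 : ∃ c ∈ L, c.2 = 0 ∧ 0 < c.1
    · exact Or.inl h0
    refine Or.inr ?_
    rcases exists_least hv L with hL | ⟨d, hdL, w, h1, h2, h3, h4⟩
    · obtain ⟨u, hu, hu2⟩ := exists_large hd L
      obtain ⟨c, hc, hcu⟩ := h u
      exfalso
      rcases (hL c hc).lt_or_eq with hneg | hzero
      · exact absurd (hu2 c hc hneg) (not_le.2 hcu)
      · refine h0 ⟨c, hc, hzero, ?_⟩
        rwa [hzero, zero_mul, add_zero] at hcu
    · obtain ⟨c, hc, hcw⟩ := h w
      have hc2 : c.2 < 0 := by
        rcases lt_trichotomy c.2 0 with hneg | hzero | hpos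
        · exact hneg
        · refine absurd ⟨c, hc, hzero, ?_⟩ h0
          rwa [hzero, zero_mul, add_zero] at hcw
        · exact absurd (h4 c hc hpos) (not_le.2 hcw)
      refine ⟨c, hc, d, hdL, w, ?_, hc2, by linarith, h1, by linarith⟩
      have h5 : 1 ≤ d.2 := hd _ h1
      have h6 := abs_nonneg c.1
      have h7 := le_abs_self d.1
      have h8 := neg_le_abs d.1
      rw [abs_le]
      constructor
      · rcases le_or_gt 0 w with hw | hw
        · linarith
        · have h9 : 1 ≤ -w := hd _ (by linarith)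
          have h10 : 0 ≤ -(w + 1) := by linarith
          have h11 := mul_le_mul_of_nonneg_right h5 h10
          linarith
      · rcases le_or_gt 0 w with hw | hw
        · have h11 := mul_le_mul_of_nonneg_right h5 hw
          linarith
        · linarith
  · rintro (⟨c, hc, h1, h2⟩ | ⟨c, hc, d, hdL, w, -, h1, h2, h3, h4⟩) u
    · exact ⟨c, hc, by rw [h1, zero_mul, add_zero]; exact h2⟩
    · rcases le_or_gt u w with hu | hu
      · refine ⟨c, hc, ?_⟩
        have h5 := mul_le_mul_of_nonneg_left hu (neg_nonneg.2 h1.le)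
        linarith
      · refine ⟨d, hdL, ?_⟩
        have h6 : 1 ≤ u - w := hd _ (by linarith)
        have h7 := mul_le_mul_of_nonneg_left (show w + 1 ≤ u by linarith) h3.le
        linarith

end

end Pool.Agent.H20.FL
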