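import Pool.Agent.H20.FL.Flat
import Pool.Agent.H20.FL.Descent
import Pool.Agent.H20.FL.One

set_option autoImplicit false

/-!
# Flatness of trapezoids without integer points
-/

namespace Pool.Agent.H20.FL

variable {R : Type} [CommRing R] [LinearOrder R] [IsStrictOrderedRing R]

theorem flat (hd : ∀ a : R, 0 < a → 1 ≤ a)
    (hv : ∀ a b : R, 0 < b → ∃ q, b * q ≤ a ∧ a < b * (q + 1))
    (x0 x1 a b c a' b' c' B B' : R) (hc : 0 < c) (hc' : 0 < c') (hx : x0 < x1)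
    (h0 : 1 ≤ (a' * x0 + b') * c - (a * x0 + b) * c') (h1 : 1 ≤ (a' * x1 + b') * c - (a * x1 + b) * c')
    (hno : ∀ x y, ¬ In x0 x1 a b c a' b' c' x y) (hB : (x1 - x0) * (c * c') * (1 + c' * |a|) ≤ B)
    (hB' : B * (|c * c' * x0| + |c' * (a * x0 + b)|) + (x1 - x0) + |x0| ≤ B')
    (hL : ∀ W0 : R, 0 ≤ W0 → E (c*c') (vx x0 x1 c c') (vy x0 x1 a b c a' b' c') B B' W0 →
      ∃ W, 0 ≤ W ∧ W ≤ W0 ∧ E (c*c') (vx x0 x1 c c') (vy x0 x1 a b c a' b' c') B B' W ∧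
        ∀ W', 0 ≤ W' → W' < W → ¬ E (c*c') (vx x0 x1 c c') (vy x0 x1 a b c a' b' c') B B' W') :
    ∃ W, 0 ≤ W ∧ W ≤ 13 ∧ E (c*c') (vx x0 x1 c c') (vy x0 x1 a b c a' b' c') B B' W :=
  flat_of_descent (fun N hN ξ υ hC e W hW h1 i j hi hj => descent hd hv N hN ξ υ hC e W hW h1 i j hi hj) hd
    x0 x1 a b c a' b' c' B B' hc hc' hx h0 h1 hno hB (by
      have := abs_nonneg x0
      linarith) hL

end Pool.Agent.H20.FL
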