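import Pool.Agent.H20.FL.One

set_option autoImplicit false

/-!
# The solutions of a bounded list of linear constraints in one unknown are an interval
-/

namespace Pool.Agent.H20.FL

section

variable {R : Type} [CommRing R] [LinearOrder R] [IsStrictOrderedRing R]

/-- the greatest solution -/
theorem exists_greatest (hd : ∀ a : R, 0 < a → 1 ≤ a)
    (hv : ∀ a b : R, 0 < b → ∃ q, b * q ≤ a ∧ a < b * (q + 1)) (L : List (R × R)) (a : R)
    (ha : ∀ k ∈ L, k.1 + k.2 * a ≤ 0) (hp : ∃ k ∈ L, 0 < k.2) :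
    ∃ w : R, a ≤ w ∧ (∀ k ∈ L, k.1 + k.2 * w ≤ 0) ∧ ∃ k ∈ L, 0 < k.1 + k.2 * (w + 1) := by
  rcases exists_least hv L with h | ⟨d, hdL, w, h1, _, h3, h4⟩
  · obtain ⟨k, hk, hk0⟩ := hp
    exact absurd hk0 (not_lt.2 (h k hk))
  · have haw : a ≤ w := by
      by_contra hc
      push Not at hc
      have h5 := hd (a - w) (by linarith)
      have h6 : d.2 * (w + 1) ≤ d.2 * a := mul_le_mul_of_nonneg_left (by linarith) h1.le
      have h7 := ha d hdL
      linarith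
    refine ⟨w, haw, fun k hk => ?_, d, hdL, by linarith⟩
    rcases lt_or_ge 0 k.2 with hk0 | hk0
    · exact h4 k hk hk0
    · have h6 : k.2 * w ≤ k.2 * a := mul_le_mul_of_nonpos_left haw hk0
      have h7 := ha k hk
      linarith

/-- the least solution -/
theorem exists_smallest (hd : ∀ a : R, 0 < a → 1 ≤ a)
    (hv : ∀ a b : R, 0 < b → ∃ q, b * q ≤ a ∧ a < b * (q + 1)) (L : List (R × R)) (a : R)
    (ha : ∀ k ∈ L, k.1 + k.2 * a ≤ 0) (hp : ∃ k ∈ L, k.2 < 0) :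
    ∃ w : R, w ≤ a ∧ (∀ k ∈ L, k.1 + k.2 * w ≤ 0) ∧ ∃ k ∈ L, 0 < k.1 + k.2 * (w - 1) := by
  obtain ⟨w, h1, h2, k, hk, h3⟩ := exists_greatest hd hv (L.map fun e => (e.1, -e.2)) (-a)
    (by
      intro k hk
      obtain ⟨e, he, rfl⟩ := List.mem_map.1 hk
      have := ha e he
      simpa using this)
    (by
      obtain ⟨k, hk, hk0⟩ := hp
      exact ⟨_, List.mem_map.2 ⟨k, hk, rfl⟩, by simpa using hk0⟩)
  refine ⟨-w, by linarith, fun e he => ?_, ?_⟩
  · have := h2 _ (List.mem_map.2 ⟨e, he, rfl⟩)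
    have h5 : e.1 + e.2 * -w = e.1 + -e.2 * w := by ring
    rw [h5]
    exact this
  · obtain ⟨e, he, rfl⟩ := List.mem_map.1 hk
    refine ⟨e, he, ?_⟩
    have h5 : e.1 + e.2 * (-w - 1) = e.1 + -e.2 * (w + 1) := by ring
    rw [h5]
    exact h3

/-- convexity -/
theorem between (L : List (R × R)) {x y z : R} (hx : ∀ k ∈ L, k.1 + k.2 * x ≤ 0)
    (hz : ∀ k ∈ L, k.1 + k.2 * z ≤ 0) (hxy : x ≤ y) (hyz : y ≤ z) : ∀ k ∈ L, k.1 + k.2 * y ≤ 0 := by
  intro k hk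
  have h1 := hx k hk
  have h2 := hz k hk
  rcases le_total 0 k.2 with h | h
  · have := mul_le_mul_of_nonneg_left hyz h
    linarith
  · have := mul_le_mul_of_nonpos_left hxy h
    linarith

/-- Quantification over the solutions of a bounded list of linear constraints in one unknown. -/
theorem interval (hd : ∀ a : R, 0 < a → 1 ≤ a)
    (hv : ∀ a b : R, 0 < b → ∃ q, b * q ≤ a ∧ a < b * (q + 1)) (L : List (R × R)) (t : R)
    (h0 : ((0 : R), (-1 : R)) ∈ L) (h1 : (-t, (1 : R)) ∈ L) (P : R → Prop) :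
    (∀ x : R, (∀ k ∈ L, k.1 + k.2 * x ≤ 0) → P x) ↔
      (∀ u : R, ∃ k ∈ L, 0 < k.1 + k.2 * u) ∨
      ∃ x0, |x0| ≤ t ∧ ∃ x1, |x1| ≤ t ∧ (x0 ≤ x1 ∧ (∀ k ∈ L, k.1 + k.2 * x0 ≤ 0) ∧
        (∀ k ∈ L, k.1 + k.2 * x1 ≤ 0) ∧ (∃ k ∈ L, 0 < k.1 + k.2 * (x0 - 1)) ∧
        (∃ k ∈ L, 0 < k.1 + k.2 * (x1 + 1)) ∧ ∀ x, x0 ≤ x → x ≤ x1 → P x) := by
  have hbd : ∀ x : R, (∀ k ∈ L, k.1 + k.2 * x ≤ 0) → |x| ≤ t := by
    intro x hx
    have h2 := hx _ h0
    have h3 := hx _ h1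
    simp only at h2 h3
    rw [abs_le]
    constructor <;> linarith
  constructor
  · intro h
    by_cases hS : ∃ a : R, ∀ k ∈ L, k.1 + k.2 * a ≤ 0
    · right
      obtain ⟨a, ha⟩ := hS
      obtain ⟨x1, h2, h3, h4⟩ := exists_greatest hd hv L a ha ⟨_, h1, one_pos⟩
      obtain ⟨x0, h5, h6, h7⟩ := exists_smallest hd hv L a ha ⟨_, h0, neg_one_lt_zero⟩
      exact ⟨x0, hbd x0 h6, x1, hbd x1 h3, h5.trans h2, h6, h3, h7, h4,
        fun x hx0 hx1 => h x (between L h6 h3 hx0 hx1)⟩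
    · left
      intro u
      by_contra hc
      push Not at hc
      exact hS ⟨u, hc⟩
  · rintro (h | ⟨x0, _, x1, _, h2, h3, h4, h5, h6, h7⟩) x hx
    · obtain ⟨k, hk, hk0⟩ := h x
      exact absurd hk0 (not_lt.2 (hx k hk))
    · refine h7 x ?_ ?_
      · by_contra hc
        push Not at hc
        have h8 := hd (x0 - x) (by linarith)
        obtain ⟨k, hk, hk0⟩ := h5
        exact absurd hk0 (not_lt.2 (between L hx h3 (by linarith) (by linarith) k hk))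
      · by_contra hc
        push Not at hc
        have h8 := hd (x - x1) (by linarith)
        obtain ⟨k, hk, hk0⟩ := h6
        exact absurd hk0 (not_lt.2 (between L h4 hx (by linarith) (by linarith) k hk))

end

end Pool.Agent.H20.FL
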