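import Mathlib

set_option autoImplicit false

/-!
# [H20 FL Red] Elimination of `y` from a system of linear constraints

A constraint is `c = (A, B, C)`, meaning `A + B x + C y ≤ 0`. `C < 0` on `Sm` (lower lines), `C = 0` on `Sz`, `C > 0` on `Sp`
(upper lines).
-/

namespace Pool.Agent.H20.FL

variable {R : Type} [CommRing R] [LinearOrder R] [IsStrictOrderedRing R]

/-- the constraints `α + β x ≤ 0` on `x`: those of `Sz`, the lower line of `i` is the highest one of `Sm`, the upper line of `j`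
is the lowest one of `Sp`, and the line of `i` is below the line of `j` -/
def X (Sm Sz Sp : List (R × R × R)) (i j : R × R × R) : List (R × R) :=
  Sz.map (fun l => (l.1, l.2.1)) ++
  Sm.map (fun l => (i.2.2 * (-1) * l.1 + l.2.2 * i.1, i.2.2 * (-1) * l.2.1 + l.2.2 * i.2.1)) ++
  Sp.map (fun l => (j.2.2 * l.1 + l.2.2 * (-1) * j.1, j.2.2 * l.2.1 + l.2.2 * (-1) * j.2.1)) ++
  [(j.2.2 * i.1 + i.2.2 * (-1) * j.1, j.2.2 * i.2.1 + i.2.2 * (-1) * j.2.1)]

/-- what the constraints of `X` say -/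
theorem mem_X (Sm Sz Sp : List (R × R × R)) (i j : R × R × R) (x : R) :
    (∀ k ∈ X Sm Sz Sp i j, k.1 + k.2 * x ≤ 0) ↔
      (∀ l ∈ Sz, l.1 + l.2.1 * x ≤ 0) ∧
      (∀ l ∈ Sm, (l.1 + l.2.1 * x) * (-i.2.2) ≤ (i.1 + i.2.1 * x) * (-l.2.2)) ∧
      (∀ l ∈ Sp, (j.1 + j.2.1 * x) * (-l.2.2) ≤ (l.1 + l.2.1 * x) * (-j.2.2)) ∧
      (i.1 + i.2.1 * x) * j.2.2 ≤ (j.1 + j.2.1 * x) * i.2.2 := by
  unfold X
  rw [List.forall_mem_append, List.forall_mem_append, List.forall_mem_append]
  constructor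
  · rintro ⟨⟨⟨h1, h2⟩, h3⟩, h4⟩
    refine ⟨fun l hl => ?_, fun l hl => ?_, fun l hl => ?_, ?_⟩
    · exact h1 _ (List.mem_map_of_mem hl)
    · have := h2 _ (List.mem_map_of_mem hl)
      linear_combination this
    · have := h3 _ (List.mem_map_of_mem hl)
      linear_combination this
    · have := h4 _ (List.mem_singleton_self _)
      linear_combination this
  · rintro ⟨h1, h2, h3, h4⟩
    refine ⟨⟨⟨fun k hk => ?_, fun k hk => ?_⟩, fun k hk => ?_⟩, fun k hk => ?_⟩
    · obtain ⟨l, hl, rfl⟩ := List.mem_map.1 hk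
      exact h1 l hl
    · obtain ⟨l, hl, rfl⟩ := List.mem_map.1 hk
      have := h2 l hl
      linear_combination this
    · obtain ⟨l, hl, rfl⟩ := List.mem_map.1 hk
      have := h3 l hl
      linear_combination this
    · rw [List.mem_singleton] at hk
      rw [hk]
      linear_combination h4

/-- the greatest fraction of a list -/
theorem exists_max {α : Type} (n d : α → R) : ∀ S : List α, S ≠ [] → (∀ l ∈ S, 0 < d l) →
    ∃ i ∈ S, ∀ l ∈ S, n l * d i ≤ n i * d l
  | [], h, _ => absurd rfl h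
  | [a], _, _ => ⟨a, List.mem_singleton_self a, fun l hl => by
      rw [List.mem_singleton] at hl
      rw [hl]⟩
  | a :: b :: S, _, hd => by
    obtain ⟨i, hi, hm⟩ := exists_max n d (b :: S) (List.cons_ne_nil _ _)
      fun l hl => hd l (List.mem_cons_of_mem _ hl)
    have hda := hd a List.mem_cons_self
    have hdi := hd i (List.mem_cons_of_mem _ hi)
    rcases le_total (n a * d i) (n i * d a) with h | h
    · refine ⟨i, List.mem_cons_of_mem _ hi, fun l hl => ?_⟩
      rcases List.mem_cons.1 hl with rfl | hl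
      · exact h
      · exact hm l hl
    · refine ⟨a, List.mem_cons_self, fun l hl => ?_⟩
      rcases List.mem_cons.1 hl with rfl | hl
      · exact le_rfl
      · have hdl := hd l (List.mem_cons_of_mem _ hl)
        have h1 := hm l hl
        have h2 : n l * d i * d a ≤ n i * d l * d a := mul_le_mul_of_nonneg_right h1 hda.le
        have h3 : n i * d a * d l ≤ n a * d i * d l := mul_le_mul_of_nonneg_right h hdl.le
        refine le_of_mul_le_mul_right ?_ hdi
        calc n l * d a * d i = n l * d i * d a := by ring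
          _ ≤ n i * d l * d a := h2
          _ = n i * d a * d l := by ring
          _ ≤ n a * d i * d l := h3
          _ = n a * d l * d i := by ring

/-- (R) elimination of `y` -/
theorem red (Sm Sz Sp : List (R × R × R)) (hm : ∀ c ∈ Sm, c.2.2 < 0) (hz : ∀ c ∈ Sz, c.2.2 = 0)
    (hp : ∀ c ∈ Sp, 0 < c.2.2) (hmn : Sm ≠ []) (hpn : Sp ≠ []) :
    (∀ x y : R, ∃ c ∈ Sm ++ Sz ++ Sp, 0 < c.1 + c.2.1 * x + c.2.2 * y) ↔
      ∀ i ∈ Sm, ∀ j ∈ Sp, ∀ x : R, (∀ k ∈ X Sm Sz Sp i j, k.1 + k.2 * x ≤ 0) →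
        ∀ y : R, ¬ (i.1 + i.2.1 * x + i.2.2 * y ≤ 0 ∧ j.1 + j.2.1 * x + j.2.2 * y ≤ 0) := by
  constructor
  · rintro h i hi j hj x hX y ⟨hiy, hjy⟩
    rw [mem_X] at hX
    obtain ⟨h1, h2, h3, -⟩ := hX
    obtain ⟨c, hc, hcy⟩ := h x y
    have hCi := hm i hi
    have hCj := hp j hj
    rw [List.mem_append, List.mem_append] at hc
    rcases hc with (hc | hc) | hc
    · have hCc := hm c hc
      have e1 := h2 c hc
      have e2 : (c.1 + c.2.1 * x + c.2.2 * y) * (-i.2.2) ≤ (i.1 + i.2.1 * x + i.2.2 * y) * (-c.2.2) := by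
        linear_combination e1
      have e3 : (i.1 + i.2.1 * x + i.2.2 * y) * (-c.2.2) ≤ 0 :=
        mul_nonpos_of_nonpos_of_nonneg hiy (by linarith)
      have e4 : 0 < (c.1 + c.2.1 * x + c.2.2 * y) * (-i.2.2) := mul_pos hcy (by linarith)
      linarith
    · have e1 := h1 c hc
      rw [hz c hc, zero_mul, add_zero] at hcy
      linarith
    · have hCc := hp c hc
      have e1 := h3 c hc
      have e2 : (c.1 + c.2.1 * x + c.2.2 * y) * j.2.2 ≤ (j.1 + j.2.1 * x + j.2.2 * y) * c.2.2 := by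
        linear_combination e1
      have e3 : (j.1 + j.2.1 * x + j.2.2 * y) * c.2.2 ≤ 0 :=
        mul_nonpos_of_nonpos_of_nonneg hjy hCc.le
      have e4 : 0 < (c.1 + c.2.1 * x + c.2.2 * y) * j.2.2 := mul_pos hcy hCj
      linarith
  · intro h x y
    by_contra hcon
    push Not at hcon
    have hcm : ∀ c ∈ Sm, c.1 + c.2.1 * x + c.2.2 * y ≤ 0 := fun c hc =>
      hcon c (List.mem_append_left _ (List.mem_append_left _ hc))
    have hcz : ∀ c ∈ Sz, c.1 + c.2.1 * x + c.2.2 * y ≤ 0 := fun c hc =>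
      hcon c (List.mem_append_left _ (List.mem_append_right _ hc))
    have hcp : ∀ c ∈ Sp, c.1 + c.2.1 * x + c.2.2 * y ≤ 0 := fun c hc =>
      hcon c (List.mem_append_right _ hc)
    obtain ⟨i, hi, him⟩ := exists_max (fun l : R × R × R => l.1 + l.2.1 * x) (fun l => -l.2.2) Sm hmn
      fun l hl => by
        have := hm l hl
        linarith
    obtain ⟨j, hj, hjm⟩ := exists_max (fun l : R × R × R => l.1 + l.2.1 * x) (fun l => l.2.2) Sp hpn hp
    have hCi := hm i hi
    have hCj := hp j hj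
    have hiy := hcm i hi
    have hjy := hcp j hj
    refine h i hi j hj x ?_ y ⟨hiy, hjy⟩
    rw [mem_X]
    refine ⟨fun l hl => ?_, him, fun l hl => ?_, ?_⟩
    · have := hcz l hl
      rwa [hz l hl, zero_mul, add_zero] at this
    · have := hjm l hl
      linear_combination this
    · have e1 : (i.1 + i.2.1 * x + i.2.2 * y) * j.2.2 ≤ 0 :=
        mul_nonpos_of_nonpos_of_nonneg hiy hCj.le
      have e2 : 0 ≤ (j.1 + j.2.1 * x + j.2.2 * y) * i.2.2 :=
        mul_nonneg_of_nonpos_of_nonpos hjy hCi.le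
      linear_combination e1 + e2

end Pool.Agent.H20.FL
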