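import Pool.Agent.H20.FL.TrapE
import Pool.Agent.H20.FL.Red
import Pool.Agent.H20.FL.Int

set_option autoImplicit false

/-!
# Systems of linear constraints in two unknowns with known signs
-/

namespace Pool.Agent.H20.FL

open Pool.Agent.H20.E1

section alg

variable {R : Type} [CommRing R] [LinearOrder R] [IsStrictOrderedRing R]

theorem t2 (hd : ∀ a : R, 0 < a → 1 ≤ a) {A B C A' B' C' x0 x1 : R} (hC : C < 0) (hC' : 0 < C')
    (hx : x0 ≤ x1) (g0 : (A + B * x0) * C' ≤ (A' + B' * x0) * C)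
    (g1 : (A + B * x1) * C' ≤ (A' + B' * x1) * C) :
    (∀ x, x0 ≤ x → x ≤ x1 → ∀ y, ¬ (A + B * x + C * y ≤ 0 ∧ A' + B' * x + C' * y ≤ 0)) ↔
    ((x0 = x1 ∧ ∀ y, ∃ k ∈ [(A + B * x0, C), (A' + B' * x0, C')], 0 < k.1 + k.2 * y) ∨
      ((0 < -(2 * C) ∧ 0 < 2 * C' ∧ x0 < x1 ∧
        1 ≤ (-(2 * B') * x0 + (1 - 2 * A')) * (-(2 * C)) - (2 * B * x0 + (2 * A - 1)) * (2 * C') ∧
        1 ≤ (-(2 * B') * x1 + (1 - 2 * A')) * (-(2 * C)) - (2 * B * x1 + (2 * A - 1)) * (2 * C')) ∧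
        ∀ x y, ¬ In x0 x1 (2 * B) (2 * A - 1) (-(2 * C)) (-(2 * B')) (1 - 2 * A') (2 * C') x y)) := by
  have hz : ∀ z : R, 2 * z ≤ 1 ↔ z ≤ 0 := by
    intro z
    constructor
    · intro h
      by_contra h2
      have := hd z (not_le.1 h2)
      linarith
    · intro h; linarith
  have hin : ∀ x y : R, In x0 x1 (2 * B) (2 * A - 1) (-(2 * C)) (-(2 * B')) (1 - 2 * A') (2 * C') x y ↔
      (x0 ≤ x ∧ x ≤ x1 ∧ (A + B * x + C * y ≤ 0 ∧ A' + B' * x + C' * y ≤ 0)) := by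
    intro x y
    unfold In
    rw [← hz (A + B * x + C * y), ← hz (A' + B' * x + C' * y)]
    constructor
    · rintro ⟨h1, h2, h3, h4⟩
      exact ⟨h1, h2, by linarith, by linarith⟩
    · rintro ⟨h1, h2, h3, h4⟩
      exact ⟨h1, h2, by linarith, by linarith⟩
  have c1 := hd (-C) (by linarith)
  have c2 := hd C' hC'
  constructor
  · intro h
    rcases hx.eq_or_lt with hx' | hx'
    · refine Or.inl ⟨hx', fun y => ?_⟩
      have := h x0 le_rfl hx y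
      by_contra hcon
      push Not at hcon
      exact this ⟨hcon _ (List.mem_cons_self ..), hcon _ (List.mem_cons_of_mem _ (List.mem_cons_self ..))⟩
    · refine Or.inr ⟨⟨by linarith, by linarith, hx', by nlinarith, by nlinarith⟩, fun x y hi => ?_⟩
      rw [hin] at hi
      exact h x hi.1 hi.2.1 y hi.2.2
  · rintro (⟨he, h⟩ | ⟨-, h⟩) x hx0 hx1 y hxy
    · have hxe : x = x0 := le_antisymm (by rw [he]; exact hx1) hx0
      subst hxe
      obtain ⟨k, hk, hk2⟩ := h y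
      rcases List.mem_cons.1 hk with rfl | hk
      · exact absurd hxy.1 (not_le.2 hk2)
      · rw [List.mem_singleton] at hk
        subst hk
        exact absurd hxy.2 (not_le.2 hk2)
    · exact h x y ((hin x y).2 ⟨hx0, hx1, hxy⟩)

end alg

theorem D.exs2 {n : ℕ} (t : ST n) {P : ∀ M : Md, M.R → M.R → (Fin n → M.R) → Prop}
    (h : D (n + 2 + 2) (fun M u => P M ((sv n).lift2.val u) ((sv (n + 2)).val u)
      (fun i => u i.succ.succ.succ.succ))) :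
    D n (fun M v => ∃ x0, |x0| ≤ t.val v ∧ ∃ x1, |x1| ≤ t.val v ∧ P M x0 x1 v) := by
  refine D.exs (P := fun M x0 v => ∃ x1, |x1| ≤ t.val v ∧ P M x0 x1 v) t ?_
  refine (D.exs (P := fun M x1 u => P M ((sv n).val u) x1 (fun i => u i.succ.succ)) t.lift2 ?_).congr
      (fun M v _ => by simp only [ST.val_lift2'])
  exact h.congr (fun M v _ => by simp only [ST.val_lift2'])

def L2 {n : ℕ} (s : ST n) : ST (n + 2 + 2) := s.lift2.lift2

theorem L2_val {R : Type} [CommRing R] [LinearOrder R] {n : ℕ} (s : ST n) (u : Fin (n + 2 + 2) → R) :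
    (L2 s).val u = s.val (fun i => u i.succ.succ.succ.succ) := by
  simp only [L2, ST.val_lift2']

/-- value of a constraint in two unknowns -/
def cv {R : Type} [CommRing R] [LinearOrder R] {n : ℕ} (v : Fin n → R) (c : ST n × ST n × ST n) :
    R × R × R := (c.1.val v, c.2.1.val v, c.2.2.val v)

def pv {R : Type} [CommRing R] [LinearOrder R] {n : ℕ} (v : Fin n → R) (c : ST n × ST n) :
    R × R := (c.1.val v, c.2.val v)

def XS {n : ℕ} (Sm Sz Sp : List (ST n × ST n × ST n)) (i j : ST n × ST n × ST n) : List (ST n × ST n) :=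
  Sz.map (fun l => (l.1, l.2.1)) ++
  Sm.map (fun l => (((i.2.2.mul ST.one.neg).mul l.1).add (l.2.2.mul i.1),
    ((i.2.2.mul ST.one.neg).mul l.2.1).add (l.2.2.mul i.2.1))) ++
  Sp.map (fun l => ((j.2.2.mul l.1).add ((l.2.2.mul ST.one.neg).mul j.1),
    (j.2.2.mul l.2.1).add ((l.2.2.mul ST.one.neg).mul j.2.1))) ++
  [((j.2.2.mul i.1).add ((i.2.2.mul ST.one.neg).mul j.1),
    (j.2.2.mul i.2.1).add ((i.2.2.mul ST.one.neg).mul j.2.1))]

theorem XS_val {R : Type} [CommRing R] [LinearOrder R] [IsStrictOrderedRing R] {n : ℕ} (v : Fin n → R)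
    (Sm Sz Sp : List (ST n × ST n × ST n))
    (i j : ST n × ST n × ST n) : (XS Sm Sz Sp i j).map (pv v) =
      X (Sm.map (cv v)) (Sz.map (cv v)) (Sp.map (cv v)) (cv v i) (cv v j) := by
  unfold XS X
  simp only [List.map_append, List.map_map, List.map_cons, List.map_nil]
  congr 1
  · congr 1
    · congr 1
      refine List.map_congr_left (fun l _ => ?_)
      simp [pv, cv]
    · refine List.map_congr_left (fun l _ => ?_)
      simp [pv, cv]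
  · simp [pv, cv]

theorem D.pair {n : ℕ} (Sm Sz Sp : List (ST n × ST n × ST n)) (i j : ST n × ST n × ST n) (t : ST n)
    (h0 : ((ST.zero : ST n), (ST.one : ST n).neg, (ST.zero : ST n)) ∈ Sz)
    (h1 : (t.neg, (ST.one : ST n), (ST.zero : ST n)) ∈ Sz) :
    D n (fun M v => (i.2.2.val v < 0 ∧ 0 < j.2.2.val v) ∧ ∀ x : M.R,
      (∀ k ∈ X (Sm.map (cv v)) (Sz.map (cv v)) (Sp.map (cv v)) (cv v i) (cv v j), k.1 + k.2 * x ≤ 0) →
      ∀ y : M.R, ¬ (i.1.val v + i.2.1.val v * x + i.2.2.val v * y ≤ 0 ∧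
        j.1.val v + j.2.1.val v * x + j.2.2.val v * y ≤ 0)) := by
  have hA := D.one (XS Sm Sz Sp i j)
  have hB : D n (fun M v => ∃ x0, |x0| ≤ t.val v ∧ ∃ x1, |x1| ≤ t.val v ∧
      ((x0 ≤ x1 ∧ (∀ k ∈ XS Sm Sz Sp i j, k.1.val v + k.2.val v * x0 ≤ 0) ∧
        (∀ k ∈ XS Sm Sz Sp i j, k.1.val v + k.2.val v * x1 ≤ 0) ∧
        (∃ k ∈ XS Sm Sz Sp i j, 0 < k.1.val v + k.2.val v * (x0 - 1)) ∧
        (∃ k ∈ XS Sm Sz Sp i j, 0 < k.1.val v + k.2.val v * (x1 + 1))) ∧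
      ((x0 = x1 ∧ ∀ y, ∃ k ∈ [(i.1.val v + i.2.1.val v * x0, i.2.2.val v),
          (j.1.val v + j.2.1.val v * x0, j.2.2.val v)], 0 < k.1 + k.2 * y) ∨
      ((0 < -(2 * i.2.2.val v) ∧ 0 < 2 * j.2.2.val v ∧ x0 < x1 ∧
        1 ≤ (-(2 * j.2.1.val v) * x0 + (1 - 2 * j.1.val v)) * (-(2 * i.2.2.val v)) -
          (2 * i.2.1.val v * x0 + (2 * i.1.val v - 1)) * (2 * j.2.2.val v) ∧
        1 ≤ (-(2 * j.2.1.val v) * x1 + (1 - 2 * j.1.val v)) * (-(2 * i.2.2.val v)) -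
          (2 * i.2.1.val v * x1 + (2 * i.1.val v - 1)) * (2 * j.2.2.val v)) ∧
        ∀ x y, ¬ In x0 x1 (2 * i.2.1.val v) (2 * i.1.val v - 1) (-(2 * i.2.2.val v)) (-(2 * j.2.1.val v))
          (1 - 2 * j.1.val v) (2 * j.2.2.val v) x y)))) := by
    refine D.exs2 t (P := fun M x0 x1 v => ((x0 ≤ x1 ∧ (∀ k ∈ XS Sm Sz Sp i j, k.1.val v + k.2.val v * x0 ≤ 0) ∧
        (∀ k ∈ XS Sm Sz Sp i j, k.1.val v + k.2.val v * x1 ≤ 0) ∧
        (∃ k ∈ XS Sm Sz Sp i j, 0 < k.1.val v + k.2.val v * (x0 - 1)) ∧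
        (∃ k ∈ XS Sm Sz Sp i j, 0 < k.1.val v + k.2.val v * (x1 + 1))) ∧
      ((x0 = x1 ∧ ∀ y, ∃ k ∈ [(i.1.val v + i.2.1.val v * x0, i.2.2.val v),
          (j.1.val v + j.2.1.val v * x0, j.2.2.val v)], 0 < k.1 + k.2 * y) ∨
      ((0 < -(2 * i.2.2.val v) ∧ 0 < 2 * j.2.2.val v ∧ x0 < x1 ∧
        1 ≤ (-(2 * j.2.1.val v) * x0 + (1 - 2 * j.1.val v)) * (-(2 * i.2.2.val v)) -
          (2 * i.2.1.val v * x0 + (2 * i.1.val v - 1)) * (2 * j.2.2.val v) ∧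
        1 ≤ (-(2 * j.2.1.val v) * x1 + (1 - 2 * j.1.val v)) * (-(2 * i.2.2.val v)) -
          (2 * i.2.1.val v * x1 + (2 * i.1.val v - 1)) * (2 * j.2.2.val v)) ∧
        ∀ x y, ¬ In x0 x1 (2 * i.2.1.val v) (2 * i.1.val v - 1) (-(2 * i.2.2.val v)) (-(2 * j.2.1.val v))
          (1 - 2 * j.1.val v) (2 * j.2.2.val v) x y)))) ?_
    let x0 : ST (n + 2 + 2) := (sv n).lift2
    let x1 : ST (n + 2 + 2) := sv (n + 2)
    have p1 : D (n + 2 + 2) (fun M u => x0.val u ≤ x1.val u ∧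
        (∀ k ∈ XS Sm Sz Sp i j, ((L2 k.1).add ((L2 k.2).mul x0)).val u ≤ (ST.zero : ST (n + 2 + 2)).val u) ∧
        (∀ k ∈ XS Sm Sz Sp i j, ((L2 k.1).add ((L2 k.2).mul x1)).val u ≤ (ST.zero : ST (n + 2 + 2)).val u) ∧
        (∃ k ∈ XS Sm Sz Sp i j, (ST.zero : ST (n + 2 + 2)).val u < ((L2 k.1).add ((L2 k.2).mul (x0.sub .one))).val u) ∧
        (∃ k ∈ XS Sm Sz Sp i j, (ST.zero : ST (n + 2 + 2)).val u < ((L2 k.1).add ((L2 k.2).mul (x1.add .one))).val u)) :=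
      (D.le _ _).and ((D.ball _ (fun k _ => D.le _ _)).and ((D.ball _ (fun k _ => D.le _ _)).and
        ((D.bex _ (fun k _ => D.lt _ _)).and (D.bex _ (fun k _ => D.lt _ _)))))
    have p2 := (D.eq x0 x1).and (D.one [((L2 i.1).add ((L2 i.2.1).mul x0), L2 i.2.2),
      ((L2 j.1).add ((L2 j.2.1).mul x0), L2 j.2.2)])
    have p3 := D.trap x0 x1 ((ST.nat 2).mul (L2 i.2.1)) (((ST.nat 2).mul (L2 i.1)).sub .one)
      ((ST.nat 2).mul (L2 i.2.2)).neg ((ST.nat 2).mul (L2 j.2.1)).neg (ST.one.sub ((ST.nat 2).mul (L2 j.1)))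
      ((ST.nat 2).mul (L2 j.2.2))
    refine (p1.and (p2.or p3)).congr ?_
    intro M u _
    have e2 : ((2 : ℕ) : M.R) = 2 := by norm_num
    simp only [L2_val, ST.val_sub, ST.val_add, ST.val_mul, ST.val_neg, ST.val_one, ST.val_zero, ST.val_nat, e2,
      List.mem_cons, List.not_mem_nil, or_false, exists_eq_or_imp, exists_eq_left, x0, x1]
  refine (((D.lt i.2.2 .zero).and (D.lt .zero j.2.2)).and (hA.or hB)).congr ?_
  intro M v hv
  simp only [ST.val_zero]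
  refine and_congr_right (fun hg => ?_)
  obtain ⟨g1, g2⟩ := hg
  have hm0 : ((0 : M.R), (-1 : M.R)) ∈ X (Sm.map (cv v)) (Sz.map (cv v)) (Sp.map (cv v)) (cv v i) (cv v j) := by
    rw [← XS_val, List.mem_map]
    refine ⟨(ST.zero, ST.one.neg), ?_, by simp [pv]⟩
    unfold XS
    rw [List.append_assoc, List.append_assoc]
    exact List.mem_append_left _ (List.mem_map.2 ⟨_, h0, rfl⟩)
  have hm1 : (-(t.val v), (1 : M.R)) ∈ X (Sm.map (cv v)) (Sz.map (cv v)) (Sp.map (cv v)) (cv v i) (cv v j) := by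
    rw [← XS_val, List.mem_map]
    refine ⟨(t.neg, ST.one), ?_, by simp [pv]⟩
    unfold XS
    rw [List.append_assoc, List.append_assoc]
    exact List.mem_append_left _ (List.mem_map.2 ⟨_, h1, rfl⟩)
  rw [interval M.hd M.hv _ (t.val v) hm0 hm1]
  have hX : ∀ x : M.R, (∀ k ∈ X (Sm.map (cv v)) (Sz.map (cv v)) (Sp.map (cv v)) (cv v i) (cv v j), k.1 + k.2 * x ≤ 0) ↔
      ∀ k ∈ XS Sm Sz Sp i j, k.1.val v + k.2.val v * x ≤ 0 := by
    intro x
    rw [← XS_val]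
    simp only [List.mem_map, pv, forall_exists_index, and_imp, forall_apply_eq_imp_iff₂]
  have hX' : ∀ x : M.R, (∃ k ∈ X (Sm.map (cv v)) (Sz.map (cv v)) (Sp.map (cv v)) (cv v i) (cv v j), 0 < k.1 + k.2 * x) ↔
      ∃ k ∈ XS Sm Sz Sp i j, 0 < k.1.val v + k.2.val v * x := by
    intro x
    rw [← XS_val]
    simp only [List.mem_map, pv, exists_exists_and_eq_and]
  refine or_congr (forall_congr' (fun u => hX' u)) ?_
  refine exists_congr (fun x0 => and_congr_right (fun _ => exists_congr (fun x1 => and_congr_right (fun _ => ?_))))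
  rw [hX, hX, hX', hX']
  constructor
  · rintro ⟨k1, k2, k3, k4, k5, k6⟩
    refine ⟨⟨k1, k2, k3, k4, k5⟩, ?_⟩
    have m0 := ((mem_X _ _ _ _ _ x0).1 ((hX x0).2 k2)).2.2.2
    have m1 := ((mem_X _ _ _ _ _ x1).1 ((hX x1).2 k3)).2.2.2
    exact (t2 M.hd g1 g2 k1 m0 m1).1 k6
  · rintro ⟨⟨k1, k2, k3, k4, k5⟩, k6⟩
    refine ⟨k1, k2, k3, k4, k5, ?_⟩
    have m0 := ((mem_X _ _ _ _ _ x0).1 ((hX x0).2 k2)).2.2.2
    have m1 := ((mem_X _ _ _ _ _ x1).1 ((hX x1).2 k3)).2.2.2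
    exact (t2 M.hd g1 g2 k1 m0 m1).2 k6

theorem D.leaf {n : ℕ} (Sm Sz Sp : List (ST n × ST n × ST n)) (t : ST n)
    (h0 : ((ST.zero : ST n), (ST.one : ST n).neg, (ST.zero : ST n)) ∈ Sz)
    (h1 : (t.neg, (ST.one : ST n), (ST.zero : ST n)) ∈ Sz) (hm : Sm ≠ []) (hp : Sp ≠ []) :
    D n (fun M v => (((∀ c ∈ Sm, c.2.2.val v < 0) ∧ (∀ c ∈ Sz, c.2.2.val v = 0) ∧
      (∀ c ∈ Sp, 0 < c.2.2.val v)) ∧ ∀ x y : M.R, ∃ c ∈ Sm ++ Sz ++ Sp,
        0 < c.1.val v + c.2.1.val v * x + c.2.2.val v * y)) := by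
  have hS : D n (fun M v => ((∀ c ∈ Sm, c.2.2.val v < (ST.zero : ST n).val v) ∧
      (∀ c ∈ Sz, c.2.2.val v = (ST.zero : ST n).val v) ∧
      (∀ c ∈ Sp, (ST.zero : ST n).val v < c.2.2.val v))) :=
    (D.ball _ (fun c _ => D.lt _ _)).and ((D.ball _ (fun c _ => D.eq _ _)).and (D.ball _ (fun c _ => D.lt _ _)))
  have hP := D.ball Sm (fun i _ => D.ball Sp (fun j _ => D.pair Sm Sz Sp i j t h0 h1))
  refine (hS.and hP).congr ?_
  intro M v hv
  simp only [ST.val_zero]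
  refine and_congr_right (fun hg => ?_)
  obtain ⟨g1, g2, g3⟩ := hg
  have key := red (Sm.map (cv v)) (Sz.map (cv v)) (Sp.map (cv v))
    (by intro c hc; obtain ⟨d, hd', rfl⟩ := List.mem_map.1 hc; exact g1 d hd')
    (by intro c hc; obtain ⟨d, hd', rfl⟩ := List.mem_map.1 hc; exact g2 d hd')
    (by intro c hc; obtain ⟨d, hd', rfl⟩ := List.mem_map.1 hc; exact g3 d hd')
    (by simpa using hm) (by simpa using hp)
  have e1 : (∀ x y : M.R, ∃ c ∈ Sm ++ Sz ++ Sp, 0 < c.1.val v + c.2.1.val v * x + c.2.2.val v * y) ↔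
      ∀ x y : M.R, ∃ c ∈ Sm.map (cv v) ++ Sz.map (cv v) ++ Sp.map (cv v), 0 < c.1 + c.2.1 * x + c.2.2 * y := by
    refine forall_congr' (fun x => forall_congr' (fun y => ?_))
    rw [← List.map_append, ← List.map_append]
    simp only [List.mem_map, cv, exists_exists_and_eq_and]
  rw [e1, key]
  constructor
  · intro h i hi j hj
    exact ⟨⟨g1 i hi, g3 j hj⟩, h _ (List.mem_map_of_mem hi) _ (List.mem_map_of_mem hj)⟩
  · intro h i hi j hj
    obtain ⟨i', hi', rfl⟩ := List.mem_map.1 hi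
    obtain ⟨j', hj', rfl⟩ := List.mem_map.1 hj
    exact (h i' hi' j' hj').2

end Pool.Agent.H20.FL
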