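import Pool.Agent.H20.E1.Comp

set_option autoImplicit false

/-!
# Relations which are uniformly `E_1` in the models of `IE_1`
-/

namespace Pool.Agent.H20.FL

open Pool.Agent.H20.E1

/-- models of `IE_1`, bundled -/
structure Md : Type 1 where
  R : Type
  [cr : CommRing R]
  [lo : LinearOrder R]
  [so : IsStrictOrderedRing R]
  io : Model (fun _ φ => IsE1 φ) R

attribute [instance] Md.cr Md.lo Md.so

/-- a relation on the non-negative parts of all models of `IE_1` which is uniformly `E_1` -/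
def D (n : ℕ) (P : ∀ M : Md, (Fin n → M.R) → Prop) : Prop :=
  ∃ ψ : Fml n, IsE1 ψ ∧ ∀ (M : Md) (v : Fin n → M.R), (∀ i, 0 ≤ v i) → (P M v ↔ ψ.holds v)

theorem D.congr {n : ℕ} {P Q : ∀ M : Md, (Fin n → M.R) → Prop} (h : D n P)
    (hPQ : ∀ (M : Md) (v : Fin n → M.R), (∀ i, 0 ≤ v i) → (Q M v ↔ P M v)) : D n Q := by
  obtain ⟨ψ, h1, h2⟩ := h
  exact ⟨ψ, h1, fun M v hv => (hPQ M v hv).trans (h2 M v hv)⟩

theorem D.qf {n : ℕ} (φ : Fml n) (h : φ.IsQF) : D n (fun _ v => φ.holds v) :=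
  ⟨φ, .qf h, fun _ _ _ => Iff.rfl⟩

theorem D.and {n : ℕ} {P Q : ∀ M : Md, (Fin n → M.R) → Prop} (h : D n P) (h' : D n Q) :
    D n (fun M v => P M v ∧ Q M v) := by
  obtain ⟨φ, h1, h2⟩ := h
  obtain ⟨ψ, h3, h4⟩ := h'
  obtain ⟨χ, h5, h6⟩ := e1_and' h1 ψ h3
  exact ⟨χ, h5, fun M v hv => by
    show _ ↔ _
    rw [h6 M.R v hv, ← h2 M v hv, ← h4 M v hv]⟩

theorem D.or {n : ℕ} {P Q : ∀ M : Md, (Fin n → M.R) → Prop} (h : D n P) (h' : D n Q) :
    D n (fun M v => P M v ∨ Q M v) := by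
  obtain ⟨φ, h1, h2⟩ := h
  obtain ⟨ψ, h3, h4⟩ := h'
  obtain ⟨χ, h5, h6⟩ := e1_or' h1 ψ h3
  exact ⟨χ, h5, fun M v hv => by
    show _ ↔ _
    rw [h6 M.R v hv, ← h2 M v hv, ← h4 M v hv]⟩

theorem D.ex {n : ℕ} (t : Tm n) {P : ∀ M : Md, (Fin (n + 1) → M.R) → Prop}
    (h : D (n + 1) P) :
    D n (fun M v => ∃ a : M.R, 0 ≤ a ∧ a ≤ t.val v ∧ P M (Fin.cons a v)) := by
  obtain ⟨φ, h1, h2⟩ := h
  refine ⟨.ex t φ, .ex t h1, fun M v hv => ?_⟩
  simp only [Fml.holds]
  constructor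
  · rintro ⟨a, ha, hat, hx⟩
    exact ⟨a, ha, hat, (h2 M _ (cons_nonneg ha hv)).1 hx⟩
  · rintro ⟨a, ha, hat, hx⟩
    exact ⟨a, ha, hat, (h2 M _ (cons_nonneg ha hv)).2 hx⟩

theorem D.true {n : ℕ} : D n (fun _ _ => True) :=
  ⟨.eq .zero .zero, .qf (by trivial), fun _ _ _ => by simp [Fml.holds]⟩

theorem D.false {n : ℕ} : D n (fun _ _ => False) :=
  ⟨.lt .zero .zero, .qf (by trivial), fun _ _ _ => by simp [Fml.holds]⟩

/-- conjunction over a list -/
theorem D.ball {n : ℕ} {ι : Type} (L : List ι) {P : ι → ∀ M : Md, (Fin n → M.R) → Prop}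
    (h : ∀ i ∈ L, D n (P i)) : D n (fun M v => ∀ i ∈ L, P i M v) := by
  induction L with
  | nil => exact D.true.congr (fun M v _ => by simp)
  | cons a L ih =>
    refine ((h a (List.mem_cons_self ..)).and (ih (fun i hi => h i (List.mem_cons_of_mem _ hi)))).congr ?_
    intro M v _
    simp

/-- disjunction over a list -/
theorem D.bex {n : ℕ} {ι : Type} (L : List ι) {P : ι → ∀ M : Md, (Fin n → M.R) → Prop}
    (h : ∀ i ∈ L, D n (P i)) : D n (fun M v => ∃ i ∈ L, P i M v) := by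
  induction L with
  | nil => exact D.false.congr (fun M v _ => by simp)
  | cons a L ih =>
    refine ((h a (List.mem_cons_self ..)).or (ih (fun i hi => h i (List.mem_cons_of_mem _ hi)))).congr ?_
    intro M v _
    simp

/-! ### signed terms -/

/-- a difference of two terms -/
def ST (n : ℕ) : Type := Tm n × Tm n

section

variable {R : Type} [CommRing R] [LinearOrder R]

def ST.val {n : ℕ} (s : ST n) (v : Fin n → R) : R := s.1.val v - s.2.val v

def ST.zero {n : ℕ} : ST n := (.zero, .zero)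
def ST.one {n : ℕ} : ST n := (.one, .zero)
def ST.add {n : ℕ} (s t : ST n) : ST n := (.add s.1 t.1, .add s.2 t.2)
def ST.neg {n : ℕ} (s : ST n) : ST n := (s.2, s.1)
def ST.sub {n : ℕ} (s t : ST n) : ST n := s.add t.neg
def ST.mul {n : ℕ} (s t : ST n) : ST n :=
  (.add (.mul s.1 t.1) (.mul s.2 t.2), .add (.mul s.1 t.2) (.mul s.2 t.1))
def ST.of {n : ℕ} (t : Tm n) : ST n := (t, .zero)
def ST.nat {n : ℕ} : ℕ → ST n
  | 0 => .zero
  | k + 1 => (ST.nat k).add .one
/-- lift behind two quantifiers -/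
def ST.lift2 {n : ℕ} (s : ST n) : ST (n + 2) := (s.1.lift.lift, s.2.lift.lift)
def ST.lift1 {n : ℕ} (s : ST n) : ST (n + 1) := (s.1.lift, s.2.lift)

@[simp] theorem ST.val_zero {n : ℕ} (v : Fin n → R) : (ST.zero : ST n).val v = 0 := by
  simp [ST.val, ST.zero, Tm.val]
@[simp] theorem ST.val_one {n : ℕ} (v : Fin n → R) : (ST.one : ST n).val v = 1 := by
  simp [ST.val, ST.one, Tm.val]
@[simp] theorem ST.val_add {n : ℕ} (s t : ST n) (v : Fin n → R) :
    (s.add t).val v = s.val v + t.val v := by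
  simp only [ST.val, ST.add, Tm.val]; ring
@[simp] theorem ST.val_neg {n : ℕ} (s : ST n) (v : Fin n → R) : s.neg.val v = - s.val v := by
  simp only [ST.val, ST.neg]; ring
@[simp] theorem ST.val_sub {n : ℕ} (s t : ST n) (v : Fin n → R) :
    (s.sub t).val v = s.val v - t.val v := by
  simp only [ST.sub, ST.val_add, ST.val_neg]; ring
@[simp] theorem ST.val_mul {n : ℕ} (s t : ST n) (v : Fin n → R) :
    (s.mul t).val v = s.val v * t.val v := by
  simp only [ST.val, ST.mul, Tm.val]; ring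
@[simp] theorem ST.val_of {n : ℕ} (t : Tm n) (v : Fin n → R) : (ST.of t).val v = t.val v := by
  simp [ST.val, ST.of, Tm.val]
@[simp] theorem ST.val_nat {n : ℕ} (k : ℕ) (v : Fin n → R) : (ST.nat k : ST n).val v = (k : R) := by
  induction k with
  | zero => simp [ST.nat]
  | succ k ih => simp [ST.nat, ih]
@[simp] theorem ST.val_lift2 {n : ℕ} (s : ST n) (a b : R) (v : Fin n → R) :
    s.lift2.val (Fin.cons a (Fin.cons b v : Fin (n + 1) → R) : Fin (n + 2) → R) = s.val v := by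
  simp only [ST.val, ST.lift2, Tm.val_lift]
@[simp] theorem ST.val_lift1 {n : ℕ} (s : ST n) (a : R) (v : Fin n → R) :
    s.lift1.val (Fin.cons a v : Fin (n + 1) → R) = s.val v := by
  simp only [ST.val, ST.lift1, Tm.val_lift]

/-- the new signed variable -/
def sv (n : ℕ) : ST (n + 2) := (.var 0, .var 1)

@[simp] theorem val_sv {n : ℕ} (a b : R) (v : Fin n → R) :
    (sv n).val (Fin.cons a (Fin.cons b v : Fin (n + 1) → R) : Fin (n + 2) → R) = a - b := rfl

end

theorem D.le {n : ℕ} (s t : ST n) : D n (fun _ v => s.val v ≤ t.val v) := by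
  refine (D.qf (.neg (.lt (.add t.1 s.2) (.add s.1 t.2))) (by trivial)).congr ?_
  intro M v _
  simp only [Fml.holds, Tm.val, ST.val, not_lt]
  constructor <;> intro h <;> linarith

theorem D.lt {n : ℕ} (s t : ST n) : D n (fun _ v => s.val v < t.val v) := by
  refine (D.qf (.lt (.add s.1 t.2) (.add t.1 s.2)) (by trivial)).congr ?_
  intro M v _
  simp only [Fml.holds, Tm.val, ST.val]
  constructor <;> intro h <;> linarith

theorem D.eq {n : ℕ} (s t : ST n) : D n (fun _ v => s.val v = t.val v) := by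
  refine ((D.le s t).and (D.le t s)).congr ?_
  intro M v _
  exact le_antisymm_iff

/-- a signed bounded existential quantifier; `F` gets the value of the new variable and the old values -/
theorem D.exs {n : ℕ} (b : ST n) {P : ∀ M : Md, M.R → (Fin n → M.R) → Prop}
    (h : D (n + 2) (fun M v => P M ((sv n).val v) (fun i => v i.succ.succ))) :
    D n (fun M v => ∃ w : M.R, |w| ≤ b.val v ∧ P M w v) := by
  have h1 := (((D.le (sv n) b.lift2).and (D.le (sv n).neg b.lift2)).and h)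
  refine (D.ex b.1 (D.ex b.1.lift h1)).congr ?_
  intro M v hv
  have hb : b.val v ≤ b.1.val v := by
    have := Tm.val_nonneg b.2 v hv
    unfold ST.val
    linarith
  constructor
  · rintro ⟨w, hw, hP⟩
    obtain ⟨hw1, hw2⟩ := abs_le.1 hw
    have hb0 : 0 ≤ b.1.val v := Tm.val_nonneg _ v hv
    refine ⟨max (-w) 0, le_max_right _ _, max_le (by linarith) hb0, max w 0, le_max_right _ _, ?_, ?_⟩
    · rw [Tm.val_lift]
      exact max_le (by linarith) hb0
    · have e : max w 0 - max (-w) 0 = w := by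
        rcases le_total w 0 with h | h
        · rw [max_eq_right h, max_eq_left (by linarith)]; ring
        · rw [max_eq_left h, max_eq_right (by linarith)]; ring
      simp only [val_sv, ST.val_lift2, ST.val_neg, e]
      exact ⟨⟨by linarith, by linarith⟩, hP⟩
  · rintro ⟨y, -, -, x, -, -, ⟨h2, h3⟩, hP⟩
    simp only [val_sv, ST.val_lift2, ST.val_neg] at h2 h3
    exact ⟨x - y, abs_le.2 ⟨by linarith, by linarith⟩, hP⟩

/-- least number principle -/
theorem D.lnp {n : ℕ} {P : ∀ M : Md, (Fin (n + 1) → M.R) → Prop} (h : D (n + 1) P) (M : Md)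
    (v : Fin n → M.R) (hv : ∀ i, 0 ≤ v i) (W0 : M.R) (h0 : 0 ≤ W0)
    (hP : P M (Fin.cons W0 v)) : ∃ W : M.R, 0 ≤ W ∧ W ≤ W0 ∧ P M (Fin.cons W v) ∧
      ∀ W' : M.R, 0 ≤ W' → W' < W → ¬ P M (Fin.cons W' v) := by
  -- Q(z, W0, v) = ∃ W' ≤ W0, W' + z ≤ W0 ∧ P(W', v)
  let σ : Fin (n + 1) → Tm (n + 3) := Fin.cons (.var 0) (fun i : Fin n => .var i.succ.succ.succ)
  have hQ : D (n + 2) (fun M u => ∃ W' : M.R, 0 ≤ W' ∧ W' ≤ (Tm.var 1 : Tm (n + 2)).val u ∧
      (W' + u 0 ≤ u 1 ∧ P M (Fin.cons W' (fun i => u i.succ.succ)))) := by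
    obtain ⟨ψ, h1, h2⟩ := h
    have h3 : D (n + 3) (fun M u => u 0 + u 1 ≤ u 2 ∧ P M (Fin.cons (u 0) (fun i => u i.succ.succ.succ))) := by
      refine D.and ?_ ?_
      · refine (D.qf (.neg (.lt (.var 2) (.add (.var 0) (.var 1)))) (by trivial)).congr ?_
        intro M v _
        simp only [Fml.holds, Tm.val, not_lt]
      · refine ⟨ψ.subst σ, h1.subst σ, fun M u hu => ?_⟩
        rw [Fml.holds_subst]
        have e : (fun i => (σ i).val u) = (Fin.cons (u 0) (fun i : Fin n => u i.succ.succ.succ) :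
            Fin (n + 1) → M.R) := by
          funext i
          refine Fin.cases rfl (fun i => rfl) i
        rw [e]
        exact h2 M _ (cons_nonneg (hu 0) (fun i => hu _))
    exact (D.ex (.var 1) h3)
  obtain ⟨χ, h1, h2⟩ := hQ
  by_contra hcon
  push Not at hcon
  have hv' : ∀ i, 0 ≤ (Fin.cons W0 v : Fin (n + 1) → M.R) i := cons_nonneg h0 hv
  have hmain : ∀ z : M.R, 0 ≤ z → (χ.holds (Fin.cons z (Fin.cons W0 v : Fin (n + 1) → M.R) : Fin (n + 2) → M.R) ↔
      ∃ W' : M.R, 0 ≤ W' ∧ W' ≤ W0 ∧ (W' + z ≤ W0 ∧ P M (Fin.cons W' v))) := by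
    intro z hz
    exact (h2 M _ (cons_nonneg hz hv')).symm
  have hall : ∀ z : M.R, 0 ≤ z → χ.holds (Fin.cons z (Fin.cons W0 v : Fin (n + 1) → M.R) : Fin (n + 2) → M.R) := by
    refine M.io.ind (n + 1) χ h1 _ hv' ?_ ?_
    · rw [hmain 0 le_rfl]
      exact ⟨W0, h0, le_rfl, by linarith, hP⟩
    · intro z hz hzz
      rw [hmain z hz] at hzz
      rw [hmain (z + 1) (by linarith)]
      obtain ⟨W', h3, h4, h5, h6⟩ := hzz
      obtain ⟨W'', h7, h8, h9⟩ := hcon W' h3 h4 h6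
      have := M.io.disc (W' - W'') (by linarith)
      exact ⟨W'', h7, by linarith, by linarith, h9⟩
  have := (hmain (W0 + 1) (by linarith)).1 (hall (W0 + 1) (by linarith))
  obtain ⟨W', h3, h4, h5, h6⟩ := this
  linarith

theorem Md.hd (M : Md) : ∀ a : M.R, 0 < a → 1 ≤ a := M.io.disc

/-- division with remainder -/
theorem Md.hv (M : Md) : ∀ a b : M.R, 0 < b → ∃ q : M.R, b * q ≤ a ∧ a < b * (q + 1) := by
  have key : ∀ a b : M.R, 0 ≤ a → 0 < b → ∃ q : M.R, b * q ≤ a ∧ a < b * (q + 1) := by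
    intro a b ha hb
    by_contra hcon
    push Not at hcon
    have hb1 := M.hd b hb
    have hall : ∀ q : M.R, 0 ≤ q → (Fml.neg (.lt (.var 2) (.mul (.var 1) (.var 0))) : Fml 3).holds
        (Fin.cons q (Fin.cons b (Fin.cons a (fun i => i.elim0) : Fin 1 → M.R) : Fin 2 → M.R) :
          Fin 3 → M.R) := by
      refine M.io.ind 2 _ (.qf (by trivial)) _ ?_ ?_ ?_
      · exact cons_nonneg hb.le (cons_nonneg ha (fun i => i.elim0))
      · show ¬ (a < b * 0)
        rw [mul_zero]; exact not_lt.2 ha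
      · intro q hq h
        have h' : ¬ (a < b * q) := h
        show ¬ (a < b * (q + 1))
        exact not_lt.2 (hcon q (not_lt.1 h'))
    have h1 : ¬ (a < b * (a + 1)) := hall (a + 1) (by linarith)
    apply h1
    nlinarith
  intro a b hb
  rcases le_total 0 a with ha | ha
  · exact key a b ha hb
  · obtain ⟨q, h1, h2⟩ := key (-a) b (by linarith) hb
    rcases h1.eq_or_lt with h3 | h3
    · exact ⟨-q, by linarith, by nlinarith⟩
    · exact ⟨-q - 1, by nlinarith, by nlinarith⟩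

end Pool.Agent.H20.FL
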