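import Pool.Agent.H20.FL.SD
import Pool.Agent.H20.FL.Red

set_option autoImplicit false

/-!
# Splitting a list of constraints by the sign of the last coefficient
-/

namespace Pool.Agent.H20.FL

open Pool.Agent.H20.E1

theorem split {n : ℕ} (Sm Sz Sp : List (ST n × ST n × ST n))
    (hleaf : ∀ Sm' Sz' Sp' : List (ST n × ST n × ST n), Sm ⊆ Sm' → Sz ⊆ Sz' → Sp ⊆ Sp' →
      D n (fun M v => (((∀ c ∈ Sm', c.2.2.val v < 0) ∧ (∀ c ∈ Sz', c.2.2.val v = 0) ∧
        (∀ c ∈ Sp', 0 < c.2.2.val v)) ∧ ∀ x y : M.R, ∃ c ∈ Sm' ++ Sz' ++ Sp',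
          0 < c.1.val v + c.2.1.val v * x + c.2.2.val v * y)))
    (rest : List (ST n × ST n × ST n)) :
    D n (fun M v => (((∀ c ∈ Sm, c.2.2.val v < 0) ∧ (∀ c ∈ Sz, c.2.2.val v = 0) ∧
      (∀ c ∈ Sp, 0 < c.2.2.val v)) ∧ ∀ x y : M.R, ∃ c ∈ Sm ++ Sz ++ Sp ++ rest,
        0 < c.1.val v + c.2.1.val v * x + c.2.2.val v * y)) := by
  induction rest generalizing Sm Sz Sp with
  | nil =>
    refine (hleaf Sm Sz Sp (List.Subset.refl _) (List.Subset.refl _) (List.Subset.refl _)).congr ?_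
    intro M v _
    rw [List.append_nil]
  | cons a rest ih =>
    have h1 := ih (a :: Sm) Sz Sp (fun Sm' Sz' Sp' q1 q2 q3 => hleaf Sm' Sz' Sp'
      (fun x hx => q1 (List.mem_cons_of_mem _ hx)) q2 q3)
    have h2 := ih Sm (a :: Sz) Sp (fun Sm' Sz' Sp' q1 q2 q3 => hleaf Sm' Sz' Sp'
      q1 (fun x hx => q2 (List.mem_cons_of_mem _ hx)) q3)
    have h3 := ih Sm Sz (a :: Sp) (fun Sm' Sz' Sp' q1 q2 q3 => hleaf Sm' Sz' Sp'
      q1 q2 (fun x hx => q3 (List.mem_cons_of_mem _ hx)))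
    refine ((h1.or h2).or h3).congr ?_
    intro M v _
    -- the lists have the same members
    have e1 : ∀ x y : M.R, (∃ c ∈ a :: Sm ++ Sz ++ Sp ++ rest,
        0 < c.1.val v + c.2.1.val v * x + c.2.2.val v * y) ↔
        ∃ c ∈ Sm ++ Sz ++ Sp ++ a :: rest,
          0 < c.1.val v + c.2.1.val v * x + c.2.2.val v * y := by
      intro x y
      refine exists_congr fun c => and_congr_left fun _ => ?_
      simp only [List.mem_append, List.mem_cons]
      tauto
    have e2 : ∀ x y : M.R, (∃ c ∈ Sm ++ (a :: Sz) ++ Sp ++ rest,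
        0 < c.1.val v + c.2.1.val v * x + c.2.2.val v * y) ↔
        ∃ c ∈ Sm ++ Sz ++ Sp ++ a :: rest,
          0 < c.1.val v + c.2.1.val v * x + c.2.2.val v * y := by
      intro x y
      refine exists_congr fun c => and_congr_left fun _ => ?_
      simp only [List.mem_append, List.mem_cons]
      tauto
    have e3 : ∀ x y : M.R, (∃ c ∈ Sm ++ Sz ++ (a :: Sp) ++ rest,
        0 < c.1.val v + c.2.1.val v * x + c.2.2.val v * y) ↔
        ∃ c ∈ Sm ++ Sz ++ Sp ++ a :: rest,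
          0 < c.1.val v + c.2.1.val v * x + c.2.2.val v * y := by
      intro x y
      refine exists_congr fun c => and_congr_left fun _ => ?_
      simp only [List.mem_append, List.mem_cons]
      tauto
    simp only [e1, e2, e3, List.forall_mem_cons]
    rcases lt_trichotomy (a.2.2.val v) 0 with h | h | h
    · have q1 : ¬ a.2.2.val v = 0 := h.ne
      have q2 : ¬ 0 < a.2.2.val v := h.not_gt
      tauto
    · have q1 : ¬ a.2.2.val v < 0 := by rw [h]; exact lt_irrefl 0
      have q2 : ¬ 0 < a.2.2.val v := by rw [h]; exact lt_irrefl 0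
      tauto
    · have q1 : ¬ a.2.2.val v = 0 := h.ne'
      have q2 : ¬ a.2.2.val v < 0 := h.not_gt
      tauto

end Pool.Agent.H20.FL
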