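import Pool.Agent.H20.FL.SD
import Pool.Agent.H20.FL.FlatT

set_option autoImplicit false

/-!
# Empty trapezoids are uniformly `E_1` in the models of `IE_1`
-/

namespace Pool.Agent.H20.FL

open Pool.Agent.H20.E1

section alg

variable {R : Type} [CommRing R] [LinearOrder R] [IsStrictOrderedRing R]

theorem abs_le_sq (hd : ∀ a : R, 0 < a → 1 ≤ a) (z : R) : |z| ≤ z * z := by
  rcases eq_or_ne z 0 with h | h
  · simp [h]
  · have := hd |z| (abs_pos.2 h)
    have h2 : z * z = |z| * |z| := by rw [abs_mul_abs_self]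
    rw [h2]
    nlinarith [abs_nonneg z]

theorem small (hd : ∀ a : R, 0 < a → 1 ≤ a) : ∀ (k : ℕ) (x : R), 0 ≤ x → x < (k : R) →
    ∃ ρ : ℕ, ρ < k ∧ x = (ρ : R) := by
  intro k
  induction k with
  | zero => intro x h1 h2; exact absurd h1 (not_le.2 (by simpa using h2))
  | succ k ih =>
    intro x h1 h2
    push_cast at h2
    rcases lt_or_ge x (k : R) with h3 | h3
    · obtain ⟨ρ, h4, h5⟩ := ih x h1 h3
      exact ⟨ρ, h4.trans (Nat.lt_succ_self k), h5⟩
    · refine ⟨k, Nat.lt_succ_self k, ?_⟩
      rcases h3.eq_or_lt with h4 | h4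
      · exact h4.symm
      · have := hd (x - k) (by linarith)
        linarith

/-- the strip condition at the vertices gives it in the whole trapezoid -/
theorem strip_in {x0 x1 a b c a' b' c' p q e W x y : R} (hc : 0 < c) (hc' : 0 < c') (hx : x0 < x1)
    (hs : Strip (c * c') (vx x0 x1 c c') (vy x0 x1 a b c a' b' c') p q e W)
    (hi : In x0 x1 a b c a' b' c' x y) : e ≤ p * x + q * y ∧ p * x + q * y ≤ e + W := by
  obtain ⟨h1, h2, h3, h4⟩ := hi
  have hN : 0 < c * c' := mul_pos hc hc'
  have s0 := hs 0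
  have s1 := hs 1
  have s2 := hs 2
  have s3 := hs 3
  simp only [vx, vy, Matrix.cons_val_zero, Matrix.cons_val_one, Matrix.cons_val] at s0 s1 s2 s3
  have hx' : 0 < x1 - x0 := by linarith
  have u0 : 0 ≤ x - x0 := by linarith
  have u1 : 0 ≤ x1 - x := by linarith
  -- affine interpolation
  have interp : ∀ f g : R, f ≤ p * (c * c' * x0) + q * g → True := fun _ _ _ => trivial
  have low : ∀ A B : R, A * x0 + B ≥ e * (c * c') → A * x1 + B ≥ e * (c * c') →
      A * x + B ≥ e * (c * c') := by
    intro A B k0 k1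
    have : (x1 - x0) * (A * x + B - e * (c * c')) =
        (x1 - x) * (A * x0 + B - e * (c * c')) + (x - x0) * (A * x1 + B - e * (c * c')) := by ring
    have h5 : 0 ≤ (x1 - x0) * (A * x + B - e * (c * c')) := by
      rw [this]
      exact add_nonneg (mul_nonneg u1 (by linarith)) (mul_nonneg u0 (by linarith))
    have := nonneg_of_mul_nonneg_right h5 hx'
    linarith
  have high : ∀ A B : R, A * x0 + B ≤ (e + W) * (c * c') → A * x1 + B ≤ (e + W) * (c * c') →
      A * x + B ≤ (e + W) * (c * c') := by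
    intro A B k0 k1
    have : (x1 - x0) * ((e + W) * (c * c') - (A * x + B)) =
        (x1 - x) * ((e + W) * (c * c') - (A * x0 + B)) + (x - x0) * ((e + W) * (c * c') - (A * x1 + B)) := by ring
    have h5 : 0 ≤ (x1 - x0) * ((e + W) * (c * c') - (A * x + B)) := by
      rw [this]
      exact add_nonneg (mul_nonneg u1 (by linarith)) (mul_nonneg u0 (by linarith))
    have := nonneg_of_mul_nonneg_right h5 hx'
    linarith
  have l1 := low (p * (c * c') + q * c' * a) (q * c' * b) (by linarith) (by linarith)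
  have l2 := low (p * (c * c') + q * c * a') (q * c * b') (by linarith) (by linarith)
  have g1 := high (p * (c * c') + q * c' * a) (q * c' * b) (by linarith) (by linarith)
  have g2 := high (p * (c * c') + q * c * a') (q * c * b') (by linarith) (by linarith)
  have m1 : c' * (a * x + b) ≤ c * c' * y := by nlinarith
  have m2 : c * c' * y ≤ c * (a' * x + b') := by nlinarith
  constructor
  · refine le_of_mul_le_mul_right ?_ hN
    rcases le_total 0 q with hq | hq
    · have := mul_le_mul_of_nonneg_left m1 hq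
      nlinarith
    · have := mul_le_mul_of_nonpos_left m2 hq
      nlinarith
  · refine le_of_mul_le_mul_right ?_ hN
    rcases le_total 0 q with hq | hq
    · have := mul_le_mul_of_nonneg_left m2 hq
      nlinarith
    · have := mul_le_mul_of_nonpos_left m1 hq
      nlinarith

end alg

/-- lists of constraints `α + β u ≤ 0` in one unknown -/
theorem D.one {n : ℕ} (L : List (ST n × ST n)) :
    D n (fun M v => ∀ u : M.R, ∃ c ∈ L, 0 < c.1.val v + c.2.val v * u) := by
  have h1 : D n (fun M v => (∃ c ∈ L, c.2.val v = (ST.zero : ST n).val v ∧ (ST.zero : ST n).val v < c.1.val v) ∨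
      ∃ c ∈ L, ∃ d ∈ L, ∃ w : M.R, |w| ≤ (((c.1.mul c.1).add (d.1.mul d.1)).add .one).val v ∧
        ((c.2.val v < 0 ∧ -c.2.val v * w < c.1.val v) ∧ (0 < d.2.val v ∧ 0 < d.1.val v + d.2.val v * (w + 1)))) := by
    refine D.or (D.bex L (fun c _ => (D.eq _ _).and (D.lt _ _))) (D.bex L (fun c _ => D.bex L (fun d _ => ?_)))
    refine D.exs (P := fun M w v => ((c.2.val v < 0 ∧ -c.2.val v * w < c.1.val v) ∧
      (0 < d.2.val v ∧ 0 < d.1.val v + d.2.val v * (w + 1)))) _ ?_
    refine (((D.lt c.2.lift2 .zero).and (D.lt ((c.2.lift2.neg).mul (sv n)) c.1.lift2)).and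
      ((D.lt .zero d.2.lift2).and (D.lt .zero (d.1.lift2.add (d.2.lift2.mul ((sv n).add .one)))))).congr ?_
    intro M v _
    have e : v = (Fin.cons (v 0) (Fin.cons (v 1) (fun i : Fin n => v i.succ.succ) : Fin (n + 1) → M.R) :
        Fin (n + 2) → M.R) := by
      funext i
      refine Fin.cases rfl (fun i => ?_) i
      refine Fin.cases rfl (fun i => rfl) i
    rw [e]
    simp only [ST.val_lift2, ST.val_zero, ST.val_neg, ST.val_mul, ST.val_add, ST.val_one, Fin.cons_succ]
  refine h1.congr (fun M v hv => ?_)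
  have h2 := one_dim M.hd M.hv (L.map (fun c => (c.1.val v, c.2.val v)))
  simp only [List.mem_map, exists_exists_and_eq_and] at h2
  constructor
  · intro h
    rcases h2.1 h with ⟨c, hc, h3, h4⟩ | ⟨c, hc, d, hd', w, h3, h4, h5, h6, h7⟩
    · exact Or.inl ⟨c, hc, by simpa using h3, by simpa using h4⟩
    · refine Or.inr ⟨c, hc, d, hd', w, ?_, ⟨h4, h5⟩, h6, h7⟩
      have k1 := abs_le_sq M.hd (c.1.val v)
      have k2 := abs_le_sq M.hd (d.1.val v)
      simp only [ST.val_add, ST.val_mul, ST.val_one]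
      linarith
  · rintro (⟨c, hc, h3, h4⟩ | ⟨c, hc, d, hd', w, -, ⟨h4, h5⟩, h6, h7⟩) u
    · rw [ST.val_zero] at h3 h4
      exact ⟨c, hc, by rw [h3, zero_mul, add_zero]; exact h4⟩
    · rcases le_or_gt u w with h8 | h8
      · refine ⟨c, hc, ?_⟩
        nlinarith
      · refine ⟨d, hd', ?_⟩
        have := M.hd (u - w) (by linarith)
        nlinarith

end Pool.Agent.H20.FL
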