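import Pool.Agent.H20.FL.TrapD

set_option autoImplicit false

/-!
# Empty trapezoids are uniformly `E_1` in the models of `IE_1`, continued
-/

namespace Pool.Agent.H20.FL

open Pool.Agent.H20.E1

theorem ST.val_lift2' {R : Type} [CommRing R] [LinearOrder R] {n : ℕ} (s : ST n)
    (v : Fin (n + 2) → R) : s.lift2.val v = s.val (fun i => v i.succ.succ) := by
  have e : v = (Fin.cons (v 0) (Fin.cons (v 1) (fun i : Fin n => v i.succ.succ) : Fin (n + 1) → R) :
      Fin (n + 2) → R) := by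
    funext i
    refine Fin.cases rfl (fun i => ?_) i
    refine Fin.cases rfl (fun i => rfl) i
  conv_lhs => rw [e]
  rw [ST.val_lift2]

theorem ST.val_lift1' {R : Type} [CommRing R] [LinearOrder R] {n : ℕ} (s : ST n)
    (v : Fin (n + 1) → R) : s.lift1.val v = s.val (fun i => v i.succ) := by
  have e : v = (Fin.cons (v 0) (fun i : Fin n => v i.succ) : Fin (n + 1) → R) := by
    funext i
    refine Fin.cases rfl (fun i => rfl) i
  conv_lhs => rw [e]
  rw [ST.val_lift1]

/-- lift behind ten quantifiers -/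
def L5 {n : ℕ} (s : ST n) : ST (n + 2 + 2 + 2 + 2 + 2) := s.lift2.lift2.lift2.lift2.lift2

theorem D.exs5 {n : ℕ} (B B' : ST n)
    {P : ∀ M : Md, M.R → M.R → M.R → M.R → M.R → (Fin n → M.R) → Prop}
    (h : D (n + 2 + 2 + 2 + 2 + 2) (fun M u => P M ((sv n).lift2.lift2.lift2.lift2.val u)
      ((sv (n + 2)).lift2.lift2.lift2.val u) ((sv (n + 2 + 2)).lift2.lift2.val u)
      ((sv (n + 2 + 2 + 2)).lift2.val u) ((sv (n + 2 + 2 + 2 + 2)).val u)
      (fun i => u i.succ.succ.succ.succ.succ.succ.succ.succ.succ.succ))) :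
    D n (fun M v => ∃ p, |p| ≤ B.val v ∧ ∃ q, |q| ≤ B.val v ∧ ∃ r, |r| ≤ B.val v ∧
      ∃ s, |s| ≤ B.val v ∧ ∃ e, |e| ≤ B'.val v ∧ P M p q r s e v) := by
  refine D.exs (P := fun M p v => ∃ q, |q| ≤ B.val v ∧ ∃ r, |r| ≤ B.val v ∧
      ∃ s, |s| ≤ B.val v ∧ ∃ e, |e| ≤ B'.val v ∧ P M p q r s e v) B ?_
  refine (D.exs (P := fun M q u => ∃ r, |r| ≤ B.lift2.val u ∧ ∃ s, |s| ≤ B.lift2.val u ∧
      ∃ e, |e| ≤ B'.lift2.val u ∧ P M ((sv n).val u) q r s e (fun i => u i.succ.succ)) B.lift2 ?_).congr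
      (fun M v _ => by simp only [ST.val_lift2'])
  refine (D.exs (P := fun M r u => ∃ s, |s| ≤ B.lift2.lift2.val u ∧
      ∃ e, |e| ≤ B'.lift2.lift2.val u ∧ P M ((sv n).lift2.val u) ((sv (n + 2)).val u) r s e
        (fun i => u i.succ.succ.succ.succ)) B.lift2.lift2 ?_).congr
      (fun M v _ => by simp only [ST.val_lift2'])
  refine (D.exs (P := fun M s u => ∃ e, |e| ≤ B'.lift2.lift2.lift2.val u ∧
      P M ((sv n).lift2.lift2.val u) ((sv (n + 2)).lift2.val u) ((sv (n + 2 + 2)).val u) s e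
        (fun i => u i.succ.succ.succ.succ.succ.succ)) B.lift2.lift2.lift2 ?_).congr
      (fun M v _ => by simp only [ST.val_lift2'])
  refine (D.exs (P := fun M e u => P M ((sv n).lift2.lift2.lift2.val u) ((sv (n + 2)).lift2.lift2.val u)
      ((sv (n + 2 + 2)).lift2.val u) ((sv (n + 2 + 2 + 2)).val u) e
        (fun i => u i.succ.succ.succ.succ.succ.succ.succ.succ)) B'.lift2.lift2.lift2.lift2 ?_).congr
      (fun M v _ => by simp only [ST.val_lift2'])
  exact h.congr (fun M v _ => by simp only [ST.val_lift2'])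

theorem L5_val {R : Type} [CommRing R] [LinearOrder R] {n : ℕ} (s : ST n)
    (u : Fin (n + 2 + 2 + 2 + 2 + 2) → R) :
    (L5 s).val u = s.val (fun i => u i.succ.succ.succ.succ.succ.succ.succ.succ.succ.succ) := by
  simp only [L5, ST.val_lift2']

theorem D.strip {n : ℕ} (N : ST n) (ξ υ : Fin 4 → ST n) (p q e W : ST n) :
    D n (fun M v => Strip (N.val v) (fun l => (ξ l).val v) (fun l => (υ l).val v)
      (p.val v) (q.val v) (e.val v) (W.val v)) := by
  refine (D.ball (List.finRange 4) (P := fun l M v => ((e.mul N).val v ≤ ((p.mul (ξ l)).add (q.mul (υ l))).val v) ∧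
    ((p.mul (ξ l)).add (q.mul (υ l))).val v ≤ ((e.add W).mul N).val v) (fun l _ => (D.le _ _).and (D.le _ _))).congr ?_
  intro M v _
  simp only [Strip, List.mem_finRange, true_implies, ST.val_mul, ST.val_add]

theorem D.E {n : ℕ} (N : ST n) (ξ υ : Fin 4 → ST n) (B B' W : ST n) :
    D n (fun M v => E (N.val v) (fun l => (ξ l).val v) (fun l => (υ l).val v)
      (B.val v) (B'.val v) (W.val v)) := by
  refine (D.exs5 B B' (P := fun M p q r s e v => p * s - q * r = 1 ∧
    Strip (N.val v) (fun l => (ξ l).val v) (fun l => (υ l).val v) p q e (W.val v)) ?_).congr ?_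
  · refine ((D.eq (((sv n).lift2.lift2.lift2.lift2.mul (sv (n + 2 + 2 + 2)).lift2).sub
      ((sv (n + 2)).lift2.lift2.lift2.mul (sv (n + 2 + 2)).lift2.lift2)) .one).and
      (D.strip (L5 N) (fun l => L5 (ξ l)) (fun l => L5 (υ l)) (sv n).lift2.lift2.lift2.lift2
        (sv (n + 2)).lift2.lift2.lift2 (sv (n + 2 + 2 + 2 + 2)) (L5 W))).congr ?_
    intro M v _
    simp only [L5_val, ST.val_sub, ST.val_mul, ST.val_one]
  · intro M v _
    unfold FL.E
    constructor
    · rintro ⟨p, q, r, s, e, h1, h2, h3, h4, h5, h6, h7⟩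
      exact ⟨p, h1, q, h2, r, h3, s, h4, e, h5, h6, h7⟩
    · rintro ⟨p, h1, q, h2, r, h3, s, h4, e, h5, h6, h7⟩
      exact ⟨p, q, r, s, e, h1, h2, h3, h4, h5, h6, h7⟩

/-- the line `p x + q y = e + j` has no integer point in the trapezoid -/
theorem D.line {n : ℕ} (x0 x1 a b c a' b' c' p q r s e : ST n) (j : ℕ) :
    D n (fun M v => ∀ u : M.R, ¬ In (x0.val v) (x1.val v) (a.val v) (b.val v) (c.val v) (a'.val v)
      (b'.val v) (c'.val v) (s.val v * (e.val v + (j : M.R)) - q.val v * u)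
      (-r.val v * (e.val v + (j : M.R)) + p.val v * u)) := by
  let F : ST n := e.add (.nat j)
  refine (D.one [(x0.sub (s.mul F), q), ((s.mul F).sub x1, q.neg),
    (((a.mul (s.mul F)).add b).add (c.mul (r.mul F)), ((a.mul q).add (c.mul p)).neg),
    (((c'.mul (r.mul F)).add ((a'.mul (s.mul F)).add b')).neg, (c'.mul p).add (a'.mul q))]).congr ?_
  intro M v _
  refine forall_congr' (fun u => ?_)
  simp only [In, List.mem_cons, List.not_mem_nil, or_false, exists_eq_or_imp, exists_eq_left,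
    ST.val_sub, ST.val_mul, ST.val_add, ST.val_neg, ST.val_nat, F]
  constructor
  · intro h
    by_contra hcon
    push Not at hcon
    obtain ⟨h1, h2, h3, h4⟩ := hcon
    exact h ⟨by linarith, by linarith, by linarith, by linarith⟩
  · rintro h ⟨h1, h2, h3, h4⟩
    rcases h with h | h | h | h <;> linarith

def vxS {n : ℕ} (x0 x1 c c' : ST n) : Fin 4 → ST n :=
  ![(c.mul c').mul x0, (c.mul c').mul x0, (c.mul c').mul x1, (c.mul c').mul x1]

def vyS {n : ℕ} (x0 x1 a b c a' b' c' : ST n) : Fin 4 → ST n :=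
  ![c'.mul ((a.mul x0).add b), c.mul ((a'.mul x0).add b'), c'.mul ((a.mul x1).add b),
    c.mul ((a'.mul x1).add b')]

theorem vxS_val {R : Type} [CommRing R] [LinearOrder R] {n : ℕ} (x0 x1 c c' : ST n) (v : Fin n → R) :
    (fun l => (vxS x0 x1 c c' l).val v) = vx (x0.val v) (x1.val v) (c.val v) (c'.val v) := by
  funext l
  fin_cases l <;> simp [vxS, vx]

theorem vyS_val {R : Type} [CommRing R] [LinearOrder R] {n : ℕ} (x0 x1 a b c a' b' c' : ST n)
    (v : Fin n → R) : (fun l => (vyS x0 x1 a b c a' b' c' l).val v) =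
      vy (x0.val v) (x1.val v) (a.val v) (b.val v) (c.val v) (a'.val v) (b'.val v) (c'.val v) := by
  funext l
  fin_cases l <;> simp [vyS, vy]

/-- thick trapezoids -/
theorem D.trap {n : ℕ} (x0 x1 a b c a' b' c' : ST n) :
    D n (fun M v => (0 < c.val v ∧ 0 < c'.val v ∧ x0.val v < x1.val v ∧
      1 ≤ (a'.val v * x0.val v + b'.val v) * c.val v - (a.val v * x0.val v + b.val v) * c'.val v ∧
      1 ≤ (a'.val v * x1.val v + b'.val v) * c.val v - (a.val v * x1.val v + b.val v) * c'.val v) ∧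
      ∀ x y : M.R, ¬ In (x0.val v) (x1.val v) (a.val v) (b.val v) (c.val v) (a'.val v)
      (b'.val v) (c'.val v) x y) := by
  let B : ST n := ((x1.sub x0).mul (c.mul c')).mul (ST.one.add (c'.mul (a.mul a)))
  let B' : ST n := ((B.mul ((((c.mul c').mul x0).mul ((c.mul c').mul x0)).add
    ((c'.mul ((a.mul x0).add b)).mul (c'.mul ((a.mul x0).add b))))).add (x1.sub x0)).add (x0.mul x0)
  have hG : D n (fun M v => (0 < c.val v ∧ 0 < c'.val v ∧ x0.val v < x1.val v ∧
      1 ≤ (a'.val v * x0.val v + b'.val v) * c.val v - (a.val v * x0.val v + b.val v) * c'.val v ∧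
      1 ≤ (a'.val v * x1.val v + b'.val v) * c.val v - (a.val v * x1.val v + b.val v) * c'.val v)) := by
    refine ((D.lt .zero c).and ((D.lt .zero c').and ((D.lt x0 x1).and
      ((D.le .one ((((a'.mul x0).add b').mul c).sub (((a.mul x0).add b).mul c'))).and
        (D.le .one ((((a'.mul x1).add b').mul c).sub (((a.mul x1).add b).mul c'))))))).congr ?_
    intro M v _
    simp only [ST.val_zero, ST.val_one, ST.val_sub, ST.val_mul, ST.val_add]
  have hC : D n (fun M v => ∃ p, |p| ≤ B.val v ∧ ∃ q, |q| ≤ B.val v ∧ ∃ r, |r| ≤ B.val v ∧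
      ∃ s, |s| ≤ B.val v ∧ ∃ e, |e| ≤ B'.val v ∧ (p * s - q * r = 1 ∧
        Strip ((c.mul c').val v) (fun l => (vxS x0 x1 c c' l).val v)
          (fun l => (vyS x0 x1 a b c a' b' c' l).val v) p q e (((ST.nat 13 : ST n)).val v) ∧
        ∀ j ∈ List.range 14, ∀ u : M.R, ¬ In (x0.val v) (x1.val v) (a.val v) (b.val v) (c.val v) (a'.val v)
          (b'.val v) (c'.val v) (s * (e + ((j : ℕ) : M.R)) - q * u) (-r * (e + ((j : ℕ) : M.R)) + p * u))) := by
    refine D.exs5 B B' (P := fun M p q r s e v => (p * s - q * r = 1 ∧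
        Strip ((c.mul c').val v) (fun l => (vxS x0 x1 c c' l).val v)
          (fun l => (vyS x0 x1 a b c a' b' c' l).val v) p q e (((ST.nat 13 : ST n)).val v) ∧
        ∀ j ∈ List.range 14, ∀ u : M.R, ¬ In (x0.val v) (x1.val v) (a.val v) (b.val v) (c.val v) (a'.val v)
          (b'.val v) (c'.val v) (s * (e + ((j : ℕ) : M.R)) - q * u) (-r * (e + ((j : ℕ) : M.R)) + p * u))) ?_
    refine ((D.eq (((sv n).lift2.lift2.lift2.lift2.mul (sv (n + 2 + 2 + 2)).lift2).sub
      ((sv (n + 2)).lift2.lift2.lift2.mul (sv (n + 2 + 2)).lift2.lift2)) .one).and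
      ((D.strip (L5 (c.mul c')) (fun l => L5 (vxS x0 x1 c c' l)) (fun l => L5 (vyS x0 x1 a b c a' b' c' l))
        (sv n).lift2.lift2.lift2.lift2
        (sv (n + 2)).lift2.lift2.lift2 (sv (n + 2 + 2 + 2 + 2)) (L5 (.nat 13))).and
        (D.ball (List.range 14) (fun j _ => D.line (L5 x0) (L5 x1) (L5 a) (L5 b) (L5 c) (L5 a') (L5 b') (L5 c')
          (sv n).lift2.lift2.lift2.lift2 (sv (n + 2)).lift2.lift2.lift2 (sv (n + 2 + 2)).lift2.lift2
          (sv (n + 2 + 2 + 2)).lift2 (sv (n + 2 + 2 + 2 + 2)) j)))).congr ?_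
    intro M v _
    simp only [L5_val, ST.val_sub, ST.val_mul, ST.val_one]
  refine (hG.and hC).congr (fun M v hv => and_congr_right (fun hg => ?_))
  obtain ⟨hc, hc', hx, h0, h1⟩ := hg
  simp only [vxS_val, vyS_val]
  have hN : 0 < c.val v * c'.val v := mul_pos hc hc'
  constructor
  · intro hno
    have hBv : B.val v = (x1.val v - x0.val v) * (c.val v * c'.val v) * (1 + c'.val v * (a.val v * a.val v)) := by
      simp only [B, ST.val_sub, ST.val_mul, ST.val_one, ST.val_add]
    have hBv' : B'.val v = B.val v * ((c.val v * c'.val v * x0.val v) * (c.val v * c'.val v * x0.val v) +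
        (c'.val v * (a.val v * x0.val v + b.val v)) * (c'.val v * (a.val v * x0.val v + b.val v))) +
        (x1.val v - x0.val v) + x0.val v * x0.val v := by
      simp only [B', ST.val_sub, ST.val_mul, ST.val_add]
    have hB : (x1.val v - x0.val v) * (c.val v * c'.val v) * (1 + c'.val v * |a.val v|) ≤ B.val v := by
      rw [hBv]
      refine mul_le_mul_of_nonneg_left ?_ (mul_nonneg (by linarith) hN.le)
      have := mul_le_mul_of_nonneg_left (abs_le_sq M.hd (a.val v)) hc'.le
      linarith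
    have hB0 : 0 ≤ B.val v := by
      refine le_trans ?_ hB
      exact mul_nonneg (mul_nonneg (by linarith) hN.le) (by
        have := mul_nonneg hc'.le (abs_nonneg (a.val v))
        linarith)
    have hB' : B.val v * (|c.val v * c'.val v * x0.val v| + |c'.val v * (a.val v * x0.val v + b.val v)|) +
        (x1.val v - x0.val v) + |x0.val v| ≤ B'.val v := by
      rw [hBv']
      have k1 := abs_le_sq M.hd (c.val v * c'.val v * x0.val v)
      have k2 := abs_le_sq M.hd (c'.val v * (a.val v * x0.val v + b.val v))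
      have k3 := abs_le_sq M.hd (x0.val v)
      have := mul_le_mul_of_nonneg_left (add_le_add k1 k2) hB0
      linarith
    have hEd : D (n + 1) (fun M u => FL.E ((c.mul c').lift1.val u)
        (fun l => ((vxS x0 x1 c c' l).lift1).val u) (fun l => ((vyS x0 x1 a b c a' b' c' l).lift1).val u)
        (B.lift1.val u) (B'.lift1.val u) ((ST.of (.var 0) : ST (n + 1)).val u)) := D.E _ _ _ _ _ _
    have hiff : ∀ W : M.R, FL.E ((c.mul c').lift1.val (Fin.cons W v : Fin (n + 1) → M.R))
        (fun l => ((vxS x0 x1 c c' l).lift1).val (Fin.cons W v : Fin (n + 1) → M.R))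
        (fun l => ((vyS x0 x1 a b c a' b' c' l).lift1).val (Fin.cons W v : Fin (n + 1) → M.R))
        (B.lift1.val (Fin.cons W v : Fin (n + 1) → M.R)) (B'.lift1.val (Fin.cons W v : Fin (n + 1) → M.R))
        ((ST.of (.var 0) : ST (n + 1)).val (Fin.cons W v : Fin (n + 1) → M.R)) ↔
        FL.E (c.val v * c'.val v) (vx (x0.val v) (x1.val v) (c.val v) (c'.val v))
          (vy (x0.val v) (x1.val v) (a.val v) (b.val v) (c.val v) (a'.val v) (b'.val v) (c'.val v))
          (B.val v) (B'.val v) W := by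
      intro W
      simp only [ST.val_lift1, ST.val_mul, ST.val_of, vxS_val, vyS_val]
      rfl
    obtain ⟨W, hW0, hW13, p, q, r, s, e, k1, k2, k3, k4, k5, k6, k7⟩ :=
      flat M.hd M.hv (x0.val v) (x1.val v) (a.val v) (b.val v) (c.val v) (a'.val v)
      (b'.val v) (c'.val v) (B.val v) (B'.val v) hc hc' hx h0 h1 hno hB hB' (by
        intro W0 hW0 hE
        obtain ⟨W, j1, j2, j3, j4⟩ := hEd.lnp M v hv W0 hW0 ((hiff W0).2 hE)
        exact ⟨W, j1, j2, (hiff W).1 j3, fun W' j5 j6 hh => j4 W' j5 j6 ((hiff W').2 hh)⟩)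
    have hNv : (c.mul c').val v = c.val v * c'.val v := ST.val_mul _ _ _
    rw [hNv]
    refine ⟨p, k1, q, k2, r, k3, s, k4, e, k5, k6, fun l => ⟨(k7 l).1, (k7 l).2.trans ?_⟩,
      fun j _ u => hno _ _⟩
    refine mul_le_mul_of_nonneg_right ?_ hN.le
    rw [ST.val_nat]
    push_cast
    linarith
  · rintro ⟨p, -, q, -, r, -, s, -, e, -, hdet, hst, hl⟩ x y hin
    rw [ST.val_mul] at hst
    obtain ⟨h3, h4⟩ := strip_in hc hc' hx hst hin
    rw [ST.val_nat] at h4
    push_cast at h4
    obtain ⟨j, hj, he⟩ := small M.hd 14 (p * x + q * y - e) (by linarith) (by push_cast; linarith)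
    refine hl j (List.mem_range.2 hj) (r * x + s * y) ?_
    have e1 : s * (e + (j : M.R)) - q * (r * x + s * y) = x := by
      rw [← he]
      have : s * (e + (p * x + q * y - e)) - q * (r * x + s * y) = (p * s - q * r) * x := by ring
      rw [this, hdet, one_mul]
    have e2 : -r * (e + (j : M.R)) + p * (r * x + s * y) = y := by
      rw [← he]
      have : -r * (e + (p * x + q * y - e)) + p * (r * x + s * y) = (p * s - q * r) * y := by ring
      rw [this, hdet, one_mul]
    rw [e1, e2]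
    exact hin

end Pool.Agent.H20.FL
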